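import Pool.Agent.Q156.AW.A2
import Pool.Agent.TH892.LW.N1

/-!
The second moment with arbitrary weights, the diagonal separated.
-/

set_option autoImplicit false

namespace Pool.Agent.Q156.BW

open Finset
open Pool.Agent.TH892.SW (rc rc_cor rc_zero rc_big div_sq)
open Pool.Agent.TH204.WR
open Pool.Agent.H373R2.NB (Ph IW IW_all)
open Pool.Agent.Q156.AW

/-- **The second moment with arbitrary weights, the diagonal separated.** -/
theorem second_ws (k : ℕ) (hk : 1 ≤ k) : ∃ c m : ℕ, 1 ≤ c ∧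
    ∀ (A : ℤ) (N0 M Y D J : ℕ) (G : ℕ → ℤ) (f : ℤ → ℝ) (Z Q u : ℝ) (I : Finset ℤ) (w : ℕ → ℝ),
    A ≠ 0 → 1 ≤ M → 1 ≤ J → 1 ≤ u → 8 * (J : ℝ) * (c * u ^ m) ≤ (M : ℝ) ^ k →
    (∀ n δ, N0 ≤ n → n + δ ≤ M → D < δ → (Y : ℤ) ≤ |G (n + δ) - G n|) →
    (∀ (δ : ℕ) (γ : ℝ), Ph k (γ * ((A : ℝ) * δ)) (fun n => γ * ((G (N0 + n + δ) - G (N0 + n) : ℤ) : ℝ))) →
    (∀ α : ℝ, ‖EE Y f α‖ ≤ Z) → (∑ y ∈ Icc (1 : ℤ) Y, f y ^ 2 ≤ Q) → (∀ n, |w n| ≤ 1) →
    ∑ t ∈ I, TW w G N0 M Y f t ^ 2 ≤ ((M : ℝ) + 1) * Q + √((((M : ℝ) + 1) * (2 * D + 1)) * (Q *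
      (2 * (D * (M / u * Q) + M * ((c * u ^ m) * (4 / (J : ℝ) ^ 2 *
        (D * (J * Q) + J * (√(2 * (Y * (1 + Real.log Y) ^ 4)) * √(Z ^ 2 * Q))))))))) := by
  classical
  obtain ⟨c, m, hc, hone⟩ := one_diff_sq k hk
  refine ⟨c, m, hc, fun A N0 M Y D J G f Z Q u I w hA hM hJ hu hJM hgap hPh hsup hQ hw => ?_⟩
  have hM0 : (0 : ℝ) < M := by exact_mod_cast hM
  have hu0 : 0 < u := by linarith
  have hJ0 : (0 : ℝ) < J := by exact_mod_cast hJ
  have hc1 : (1 : ℝ) ≤ c := by exact_mod_cast hc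
  have hQ0 : 0 ≤ Q := (sum_nonneg fun _ _ => sq_nonneg _).trans hQ
  have hrc0 : rc Y f 0 ≤ Q := by rw [rc_zero]; exact hQ
  have hrc00 : 0 ≤ rc Y f 0 := by rw [rc_zero]; exact sum_nonneg fun _ _ => sq_nonneg _
  have hrcsq : ∀ h : ℤ, rc Y f h ^ 2 ≤ Q * |rc Y f h| := by
    intro h
    rw [← sq_abs, sq]
    exact mul_le_mul_of_nonneg_right ((rc_le Y f h).trans hrc0) (abs_nonneg _)
  set P := ⌊(c : ℝ) * u ^ m⌋₊ with hP
  have hPr : (P : ℝ) ≤ c * u ^ m := Nat.floor_le (by positivity)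
  have hA1 : 1 ≤ A.natAbs := Int.natAbs_pos.2 hA
  set Sg := √(2 * (Y * (1 + Real.log Y) ^ 4)) * √(Z ^ 2 * Q) with hSg
  have hSg0 : 0 ≤ Sg := by positivity
  -- the squares of the correlations
  have h1 : ∑ δ ∈ Icc 1 M, ∑ n ∈ Icc N0 (M - δ), rc Y f (G (n + δ) - G n) ^ 2 =
      ∑ δ ∈ Icc 1 (min D M), ∑ n ∈ Icc N0 (M - δ), rc Y f (G (n + δ) - G n) ^ 2 := by
    symm
    apply sum_subset
    · exact Icc_subset_Icc_right (min_le_right _ _)
    · intro δ hδ hδ2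
      rw [mem_Icc] at hδ
      apply sum_eq_zero
      intro n hn
      rw [mem_Icc] at hn
      have h2 : D < δ := by
        by_contra hcon
        apply hδ2
        rw [mem_Icc]
        exact ⟨hδ.1, le_min (by omega) hδ.2⟩
      have h3 := hgap n δ hn.1 (by omega) h2
      rw [rc_big, zero_pow two_ne_zero]
      rw [mem_Icc]
      rintro ⟨h4, h5⟩
      have h6 : |G (n + δ) - G n| ≤ (Y : ℤ) - 1 := abs_le.2 ⟨h4, h5⟩
      linarith
  set D' := min D M with hD'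
  have hD'D : (D' : ℝ) ≤ D := by exact_mod_cast min_le_left _ _
  set F : ℕ → ℕ → ℝ := fun q δ => ∑ j ∈ range J, ∑ j' ∈ range J, rc Y f ((((q * A.natAbs) * δ : ℕ) : ℤ) * ((j' : ℤ) - j)) ^ 2 with hF
  have hsumF : ∀ q ∈ Icc 1 P, ∑ δ ∈ Icc 1 D', F q δ ≤ Q * (D * (J * Q) + J * Sg) := by
    intro q hq
    rw [mem_Icc] at hq
    have h3 := mult_rc_abs Y D' J (q * A.natAbs) (Nat.mul_pos (by omega) hA1) f Z Q hsup hQ
    have h4 : (D' : ℝ) * (J * Q) ≤ D * (J * Q) := mul_le_mul_of_nonneg_right hD'D (by positivity)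
    have h5 : ∑ δ ∈ Icc 1 D', F q δ ≤ Q * ∑ δ ∈ Icc 1 D', ∑ j ∈ range J, ∑ j' ∈ range J,
        |rc Y f (((q * A.natAbs * δ : ℕ) : ℤ) * ((j' : ℤ) - j))| := by
      simp only [hF, mul_sum]
      exact sum_le_sum fun δ _ => sum_le_sum fun j _ => sum_le_sum fun j' _ => hrcsq _
    refine h5.trans (mul_le_mul_of_nonneg_left ?_ hQ0)
    linarith
  have hfin : ∑ δ ∈ Icc 1 D', ∑ n ∈ Icc N0 (M - δ), rc Y f (G (n + δ) - G n) ^ 2 ≤
      Q * (D * (M / u * Q) + M * ((c * u ^ m) * (4 / (J : ℝ) ^ 2 * (D * (J * Q) + J * Sg)))) := by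
    have hstep : ∀ δ ∈ Icc 1 D', ∑ n ∈ Icc N0 (M - δ), rc Y f (G (n + δ) - G n) ^ 2 ≤
        M / u * Q ^ 2 + M * ∑ q ∈ Icc 1 P, 4 / (J : ℝ) ^ 2 * F q δ := by
      intro δ hδ
      rw [mem_Icc] at hδ
      have h3 := hone A N0 M Y J δ G f u hA hM hJ hu hJM hδ.1 (hδ.2.trans (min_le_right _ _)) hPh
      refine h3.trans ?_
      have h8 : (M : ℝ) / u * rc Y f 0 ^ 2 ≤ M / u * Q ^ 2 :=
        mul_le_mul_of_nonneg_left (pow_le_pow_left₀ hrc00 hrc0 2) (by positivity)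
      linarith
    refine (sum_le_sum hstep).trans ?_
    rw [sum_add_distrib, sum_const, Nat.card_Icc, Nat.add_sub_cancel, nsmul_eq_mul, ← mul_sum, sum_comm]
    have h3 : (D' : ℝ) * (M / u * Q ^ 2) ≤ D * (M / u * Q ^ 2) := mul_le_mul_of_nonneg_right hD'D (by positivity)
    have h4 : ∑ q ∈ Icc 1 P, ∑ δ ∈ Icc 1 D', 4 / (J : ℝ) ^ 2 * F q δ ≤
        (c * u ^ m) * (4 / (J : ℝ) ^ 2 * (Q * (D * (J * Q) + J * Sg))) := by
      have h5 : ∀ q ∈ Icc 1 P, ∑ δ ∈ Icc 1 D', 4 / (J : ℝ) ^ 2 * F q δ ≤ 4 / (J : ℝ) ^ 2 * (Q * (D * (J * Q) + J * Sg)) := by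
        intro q hq
        rw [← mul_sum]
        exact mul_le_mul_of_nonneg_left (hsumF q hq) (by positivity)
      refine (sum_le_sum h5).trans ?_
      rw [sum_const, Nat.card_Icc, Nat.add_sub_cancel, nsmul_eq_mul]
      exact mul_le_mul_of_nonneg_right hPr (by positivity)
    have h5 := mul_le_mul_of_nonneg_left h4 hM0.le
    have e1 : Q * (D * (M / u * Q) + M * ((c * u ^ m) * (4 / (J : ℝ) ^ 2 * (D * (J * Q) + J * Sg)))) =
        D * (M / u * Q ^ 2) + M * ((c * u ^ m) * (4 / (J : ℝ) ^ 2 * (Q * (D * (J * Q) + J * Sg)))) := by ring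
    rw [e1]
    linarith
  obtain ⟨Bd, hBd⟩ : ∃ Bd, Bd = Q * (2 * (D * (M / u * Q) + M * ((c * u ^ m) * (4 / (J : ℝ) ^ 2 * (D * (J * Q) + J * Sg))))) :=
    ⟨_, rfl⟩
  rw [← hBd]
  have hBd0 : 0 ≤ Bd := by rw [hBd]; positivity
  -- the pairs off the diagonal
  have hsplit : ∀ φ : ℕ → ℕ → ℝ, ∑ n ∈ Icc N0 M, ∑ n' ∈ Icc N0 M, φ n n' =
      ∑ n ∈ Icc N0 M, φ n n + ∑ n ∈ Icc N0 M, ∑ n' ∈ Icc N0 M, (if n = n' then 0 else φ n n') := by
    intro φ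
    rw [← sum_add_distrib]
    refine sum_congr rfl fun n hn => ?_
    have e1 : ∀ n' ∈ Icc N0 M, φ n n' = (if n = n' then φ n n' else 0) + (if n = n' then 0 else φ n n') := by
      intro n' _
      by_cases h : n = n'
      · rw [if_pos h, if_pos h, add_zero]
      · rw [if_neg h, if_neg h, zero_add]
    rw [sum_congr rfl e1, sum_add_distrib, sum_ite_eq, if_pos hn]
  have hoff : ∑ n ∈ Icc N0 M, ∑ n' ∈ Icc N0 M, (if n = n' then 0 else rc Y f (G n' - G n) ^ 2) ≤ Bd := by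
    have h2 := hsplit (fun n n' => rc Y f (G n' - G n) ^ 2)
    rw [symm_sum (fun n n' => rc Y f (G n' - G n) ^ 2), h1] at h2
    · have h3 : 2 * ∑ δ ∈ Icc 1 D', ∑ n ∈ Icc N0 (M - δ), rc Y f (G (n + δ) - G n) ^ 2 =
        ∑ n ∈ Icc N0 M, ∑ n' ∈ Icc N0 M, (if n = n' then 0 else rc Y f (G n' - G n) ^ 2) := by
        linarith
      rw [← h3, hBd]
      linarith
    · intro n n'
      rw [← rc_neg]
      congr 2
      ring
  -- the moment
  obtain ⟨Kb, hK1, hK2⟩ : ∃ Kb : ℤ, (∀ n ∈ Icc N0 M, |G n| + Y ≤ Kb) ∧ I ⊆ Icc (-Kb) Kb := by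
    refine ⟨∑ n ∈ Icc N0 M, |G n| + Y + ∑ k ∈ I, |k|, ?_, ?_⟩
    · intro n hn
      have h1 := single_le_sum (f := fun n => |G n|) (fun i _ => abs_nonneg _) hn
      have h2 : 0 ≤ ∑ k ∈ I, |k| := sum_nonneg fun _ _ => abs_nonneg _
      linarith
    · intro k hk
      have h1 := single_le_sum (f := fun k : ℤ => |k|) (fun i _ => abs_nonneg _) hk
      have h2 : 0 ≤ ∑ n ∈ Icc N0 M, |G n| := sum_nonneg fun _ _ => abs_nonneg _
      have h3 : (0 : ℤ) ≤ Y := Int.natCast_nonneg Y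
      rw [mem_Icc, ← abs_le]
      linarith
  have hm1 : ∑ k ∈ I, TW w G N0 M Y f k ^ 2 ≤ ∑ n ∈ Icc N0 M, ∑ n' ∈ Icc N0 M, |rc Y f (G n' - G n)| := by
    refine (sum_le_sum_of_subset_of_nonneg hK2 fun _ _ _ => sq_nonneg _).trans ?_
    rw [energy_w w G N0 M Y f Kb hK1]
    refine sum_le_sum fun n _ => sum_le_sum fun n' _ => ?_
    refine (le_abs_self _).trans ?_
    rw [abs_mul, abs_mul]
    have h2 : |w n| * |w n'| ≤ 1 := mul_le_one₀ (hw n) (abs_nonneg _) (hw n')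
    exact mul_le_of_le_one_left (abs_nonneg _) h2
  refine hm1.trans ?_
  rw [hsplit (fun n n' => |rc Y f (G n' - G n)|)]
  apply add_le_add
  · simp only [sub_self]
    rw [sum_const, nsmul_eq_mul]
    apply mul_le_mul
    · have : #(Icc N0 M) ≤ M + 1 := by rw [Nat.card_Icc]; omega
      exact_mod_cast this
    · rw [abs_of_nonneg hrc00]; exact hrc0
    · positivity
    · positivity
  · apply Real.le_sqrt_of_sq_le
    obtain ⟨ψ, hψ⟩ : ∃ ψ : ℕ × ℕ → ℝ, ψ = fun p => if p.1 = p.2 then 0 else |rc Y f (G p.2 - G p.1)| := ⟨_, rfl⟩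
    have e0 : ∑ n ∈ Icc N0 M, ∑ n' ∈ Icc N0 M, (if n = n' then 0 else |rc Y f (G n' - G n)|) =
        ∑ p ∈ Icc N0 M ×ˢ Icc N0 M, ψ p := by
      rw [hψ]
      exact (sum_product' _ _ (fun n n' : ℕ => if n = n' then (0 : ℝ) else |rc Y f (G n' - G n)|)).symm
    have hm2 : ∑ p ∈ Icc N0 M ×ˢ Icc N0 M, ψ p =
        ∑ p ∈ (Icc N0 M ×ˢ Icc N0 M).filter (fun p => p.1 ≤ p.2 + D ∧ p.2 ≤ p.1 + D), ψ p := by
      symm
      apply sum_subset (filter_subset _ _)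
      intro p hp hp2
      rw [mem_product, mem_Icc, mem_Icc] at hp
      rw [mem_filter, mem_product, mem_Icc, mem_Icc, not_and] at hp2
      have h3 := hp2 hp
      rw [hψ]
      simp only
      rw [rc_big, abs_zero, ite_self]
      rw [mem_Icc, ← abs_le]
      intro h4
      by_cases h5 : p.1 ≤ p.2 + D
      · have h6 : D < p.2 - p.1 := by
          by_contra hcon
          exact h3 ⟨h5, by omega⟩
        have h7 := hgap p.1 (p.2 - p.1) hp.1.1 (by omega) h6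
        rw [Nat.add_sub_cancel' (by omega)] at h7
        linarith
      · have h6 : D < p.1 - p.2 := by omega
        have h7 := hgap p.2 (p.1 - p.2) hp.2.1 (by omega) h6
        rw [Nat.add_sub_cancel' (by omega), abs_sub_comm] at h7
        linarith
    have hm3 : (∑ p ∈ (Icc N0 M ×ˢ Icc N0 M).filter (fun p => p.1 ≤ p.2 + D ∧ p.2 ≤ p.1 + D), ψ p) ^ 2 ≤
        (((M : ℝ) + 1) * (2 * D + 1)) * ∑ n ∈ Icc N0 M, ∑ n' ∈ Icc N0 M, (if n = n' then 0 else rc Y f (G n' - G n) ^ 2) := by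
      refine (sq_sum_le_card_mul_sum_sq).trans ?_
      apply mul_le_mul (card_pairs N0 M D) _ (sum_nonneg fun _ _ => sq_nonneg _) (by positivity)
      rw [← sum_product']
      calc ∑ p ∈ (Icc N0 M ×ˢ Icc N0 M).filter (fun p => p.1 ≤ p.2 + D ∧ p.2 ≤ p.1 + D), ψ p ^ 2
          ≤ ∑ p ∈ Icc N0 M ×ˢ Icc N0 M, ψ p ^ 2 :=
            sum_le_sum_of_subset_of_nonneg (filter_subset _ _) (fun _ _ _ => by positivity)
        _ = _ := sum_congr rfl fun p _ => by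
            rw [hψ]
            simp only
            by_cases h : p.1 = p.2
            · rw [if_pos h, if_pos h, zero_pow two_ne_zero]
            · rw [if_neg h, if_neg h, sq_abs]
    rw [e0, hm2]
    refine hm3.trans ?_
    exact mul_le_mul_of_nonneg_left hoff (by positivity)

end Pool.Agent.Q156.BW
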