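import Pool.Agent.Q156.BW.B3
import Pool.Agent.Q156.AW.A5
import Pool.Agent.TH892.LW.N5

/-!
Windows, with weights: the sum over the positive and over the negative values.
-/

set_option autoImplicit false

namespace Pool.Agent.Q156.BW

open Finset Polynomial
open Pool.Agent.TH204.WR (Gap gap_mono)
open Pool.Agent.TH892.LW (Gap_neg size_lo size_hi)
open Pool.Agent.Q156.AW

/-- the sum over the positive values in a window -/
lemma pos_partw (w : ℕ → ℝ) (G : ℕ → ℤ) (σ : ℤ) (hσ : σ = 1 ∨ σ = -1) (N0 g : ℕ) (hg : 1 ≤ g) (hG : Gap G σ N0 g)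
    (M : ℕ) (f : ℤ → ℝ) (t : ℤ) (n1 n2 : ℕ) (h01 : N0 ≤ n1) (h12 : n1 ≤ n2) (h2M : n2 ≤ M) (V : ℤ) (hV0 : 0 ≤ V)
    (hv1 : G n1 + t ≤ V) (hv2 : G n2 + t ≤ V) :
    ∃ Ya Yb : ℕ, Ya ≤ Yb ∧ (Yb : ℤ) ≤ V ∧
      ∑ n ∈ (Icc n1 n2).filter (fun n => 0 < G n + t), w n * f (G n + t) = TW w G N0 M Yb f t - TW w G N0 M Ya f t := by
  have key : ∀ n ∈ Icc N0 M, (n1 ≤ n ∧ n ≤ n2 ↔ σ * G n1 ≤ σ * G n ∧ σ * G n ≤ σ * G n2) := by
    intro n hn
    rw [mem_Icc] at hn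
    constructor
    · rintro ⟨h1, h2⟩
      constructor
      · rcases h1.eq_or_lt with h | h
        · rw [h]
        · exact (gap_mono G σ N0 g hg hG n1 n h01 h).le
      · rcases h2.eq_or_lt with h | h
        · rw [h]
        · exact (gap_mono G σ N0 g hg hG n n2 hn.1 h).le
    · rintro ⟨h1, h2⟩
      constructor
      · by_contra hcon
        push Not at hcon
        have := gap_mono G σ N0 g hg hG n n1 hn.1 hcon
        linarith
      · by_contra hcon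
        push Not at hcon
        have := gap_mono G σ N0 g hg hG n2 n (by omega) hcon
        linarith
  have key1 := (key n1 (by rw [mem_Icc]; omega)).1 ⟨le_rfl, h12⟩
  rcases hσ with h | h
  · rw [h] at key1 key
    refine ⟨(G n1 + t - 1).toNat, (G n2 + t).toNat, by omega, by omega, ?_⟩
    rw [TW_diff w G N0 M _ _ (by omega)]
    apply sum_congr _ fun _ _ => rfl
    ext n
    rw [mem_filter, mem_filter]
    constructor
    · rintro ⟨hn, h0⟩
      rw [mem_Icc] at hn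
      have hn' : n ∈ Icc N0 M := by rw [mem_Icc]; omega
      have h3 := (key n hn').1 hn
      exact ⟨hn', by omega, by omega⟩
    · rintro ⟨hn, h4, h5⟩
      have h3 := (key n hn).2
      rw [mem_Icc]
      exact ⟨h3 ⟨by omega, by omega⟩, by omega⟩
  · rw [h] at key1 key
    refine ⟨(G n2 + t - 1).toNat, (G n1 + t).toNat, by omega, by omega, ?_⟩
    rw [TW_diff w G N0 M _ _ (by omega)]
    apply sum_congr _ fun _ _ => rfl
    ext n
    rw [mem_filter, mem_filter]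
    constructor
    · rintro ⟨hn, h0⟩
      rw [mem_Icc] at hn
      have hn' : n ∈ Icc N0 M := by rw [mem_Icc]; omega
      have h3 := (key n hn').1 hn
      exact ⟨hn', by omega, by omega⟩
    · rintro ⟨hn, h4, h5⟩
      have h3 := (key n hn).2
      rw [mem_Icc]
      exact ⟨h3 ⟨by omega, by omega⟩, by omega⟩

/-- a window -/
lemma win_bdw (w : ℕ → ℝ) (G : ℕ → ℤ) (σ : ℤ) (hσ : σ = 1 ∨ σ = -1) (N0 g : ℕ) (hg : 1 ≤ g) (hG : Gap G σ N0 g)
    (M : ℕ) (f : ℤ → ℝ) (hfe : ∀ v, f (-v) = f v) (hf0 : f 0 = 0) (t : ℤ) (n1 n2 : ℕ) (h01 : N0 ≤ n1) (h2M : n2 ≤ M)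
    (V : ℤ) (E : ℝ) (hE : 0 ≤ E) (h1 : ∀ Y : ℕ, (Y : ℤ) ≤ V → |TW w G N0 M Y f t| ≤ E)
    (h2 : ∀ Y : ℕ, (Y : ℤ) ≤ V → |TW w (fun n => -G n) N0 M Y f (-t)| ≤ E)
    (hv : ∀ n ∈ Icc n1 n2, |G n + t| ≤ V) :
    |∑ n ∈ Icc n1 n2, w n * f (G n + t)| ≤ 4 * E := by
  rcases lt_or_ge n2 n1 with h12 | h12
  · rw [Icc_eq_empty (by omega), sum_empty, abs_zero]
    positivity
  have hv1 := hv n1 (by rw [mem_Icc]; omega)
  have hv2 := hv n2 (by rw [mem_Icc]; omega)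
  have hV0 : 0 ≤ V := (abs_nonneg _).trans hv1
  obtain ⟨Ya, Yb, hab, hbV, hs⟩ := pos_partw w G σ hσ N0 g hg hG M f t n1 n2 h01 h12 h2M V hV0
    ((le_abs_self _).trans hv1) ((le_abs_self _).trans hv2)
  obtain ⟨Yc, Yd, hcd, hdV, hs'⟩ := pos_partw w (fun n => -G n) (-σ) (by rcases hσ with h | h <;> simp [h]) N0 g hg
    (Gap_neg G σ N0 g hG) M f (-t) n1 n2 h01 h12 h2M V hV0
    (by have := (neg_abs_le _).trans' (neg_le_neg hv1); show -G n1 + -t ≤ V; linarith)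
    (by have := (neg_abs_le _).trans' (neg_le_neg hv2); show -G n2 + -t ≤ V; linarith)
  have hs2 : ∑ n ∈ (Icc n1 n2).filter (fun n => G n + t < 0), w n * f (G n + t) =
      TW w (fun n => -G n) N0 M Yd f (-t) - TW w (fun n => -G n) N0 M Yc f (-t) := by
    rw [← hs']
    have e : (Icc n1 n2).filter (fun n => G n + t < 0) = (Icc n1 n2).filter (fun n => 0 < -G n + -t) := by
      apply filter_congr
      intro n _
      constructor <;> intro h <;> linarith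
    rw [e]
    apply sum_congr rfl
    intro n _
    have : -G n + -t = -(G n + t) := by ring
    rw [this, hfe]
  have hsplit : ∑ n ∈ Icc n1 n2, w n * f (G n + t) =
      ∑ n ∈ (Icc n1 n2).filter (fun n => 0 < G n + t), w n * f (G n + t) +
      ∑ n ∈ (Icc n1 n2).filter (fun n => G n + t < 0), w n * f (G n + t) := by
    rw [sum_filter, sum_filter, ← sum_add_distrib]
    apply sum_congr rfl
    intro n _
    rcases lt_trichotomy (G n + t) 0 with h | h | h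
    · rw [if_neg (by omega), if_pos h, zero_add]
    · rw [h, hf0]; simp
    · rw [if_pos h, if_neg (by omega), add_zero]
  rw [hsplit, hs, hs2]
  have a1 := h1 Yb hbV
  have a2 := h1 Ya (le_trans (by exact_mod_cast hab) hbV)
  have a3 := h2 Yd hdV
  have a4 := h2 Yc (le_trans (by exact_mod_cast hcd) hdV)
  generalize TW w G N0 M Yb f t = x1 at *
  generalize TW w G N0 M Ya f t = x2 at *
  generalize TW w (fun n => -G n) N0 M Yd f (-t) = x3 at *
  generalize TW w (fun n => -G n) N0 M Yc f (-t) = x4 at *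
  rw [abs_le] at *
  constructor <;> linarith [a1.1, a1.2, a2.1, a2.2, a3.1, a3.2, a4.1, a4.2]

lemma mid_cardw (w : ℤ → ℝ) (hw : ∀ n, |w n| ≤ 1) (a b : ℤ) (N0 : ℕ) (f : ℤ → ℝ) (hf : ∀ v, |f v| ≤ 1) (F : ℤ[X]) (t : ℤ) :
    |∑ m ∈ (Ioc a b).filter (fun m => ¬ (N0 : ℤ) ≤ m ∧ ¬ m ≤ -(N0 : ℤ)), w m * f (F.eval m + t)| ≤ 2 * N0 := by
  have hb : ∀ n ∈ (Ioc a b).filter (fun m => ¬ (N0 : ℤ) ≤ m ∧ ¬ m ≤ -(N0 : ℤ)), |w n * f (F.eval n + t)| ≤ 1 := by
    intro n _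
    rw [abs_mul]
    exact mul_le_one₀ (hw _) (abs_nonneg _) (hf _)
  refine (abs_sum_le_sum_abs _ _).trans ((sum_le_sum hb).trans ?_)
  rw [sum_const, nsmul_eq_mul, mul_one]
  have h1 : (Ioc a b).filter (fun m => ¬ (N0 : ℤ) ≤ m ∧ ¬ m ≤ -(N0 : ℤ)) ⊆ Ioc (-(N0 : ℤ)) N0 := by
    intro m hm
    rw [mem_filter] at hm
    rw [mem_Ioc]
    omega
  have h2 := card_le_card h1
  rw [Int.card_Ioc] at h2
  have h3 : ((N0 : ℤ) - -(N0 : ℤ)).toNat = 2 * N0 := by omega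
  rw [h3] at h2
  exact_mod_cast h2

lemma three_partsw (φ : ℤ → ℝ) (a b : ℤ) (N0 : ℕ) (hN0 : 1 ≤ N0) :
    ∑ m ∈ Ioc a b, φ m =
      ∑ n ∈ Icc (max (a + 1) N0).toNat b.toNat, φ (n : ℤ) +
      ∑ n ∈ Icc (max (-b) N0).toNat (-a - 1).toNat, φ (-(n : ℤ)) +
      ∑ m ∈ (Ioc a b).filter (fun m => ¬ (N0 : ℤ) ≤ m ∧ ¬ m ≤ -(N0 : ℤ)), φ m := by
  rw [← part_pos' φ a b N0 hN0, ← part_neg' φ a b N0 hN0, sum_filter, sum_filter, sum_filter, ← sum_add_distrib,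
    ← sum_add_distrib]
  apply sum_congr rfl
  intro m _
  by_cases h1 : (N0 : ℤ) ≤ m
  · rw [if_pos h1, if_neg (by omega), if_neg (by omega)]; ring
  · by_cases h2 : m ≤ -(N0 : ℤ)
    · rw [if_neg h1, if_pos h2, if_neg (by omega)]; ring
    · rw [if_neg h1, if_neg h2, if_pos ⟨h1, h2⟩]; ring

end Pool.Agent.Q156.BW
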