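import Pool.Agent.Q156.BW.B4

/-!
One shift, with weights.
-/

set_option autoImplicit false

namespace Pool.Agent.Q156.BW

open Finset Polynomial
open Pool.Agent.TH204.WR (Gap gap_mono)
open Pool.Agent.TH892.LW (Gap_neg size_lo size_hi)
open Pool.Agent.Q156.AW

/-- one shift -/
lemma one_tw (w : ℤ → ℝ) (hw : ∀ m, |w m| ≤ 1) (k nP A N0 M g : ℕ) (hk : 1 ≤ k) (hA : 1 ≤ A) (F : ℤ[X])
    (hgr1 : ∀ m : ℤ, (nP : ℤ) ≤ |m| → |m| ^ (k + 1) ≤ 2 * |F.eval m|)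
    (hgr2 : ∀ m : ℤ, |F.eval m| ≤ A * (|m| ^ (k + 1) + 1))
    (σ₁ σ₂ : ℤ) (hσ₁ : σ₁ = 1 ∨ σ₁ = -1) (hσ₂ : σ₂ = 1 ∨ σ₂ = -1) (hg : 1 ≤ g) (hN0 : 1 ≤ N0)
    (hG1 : Gap (fun n => F.eval (n : ℤ)) σ₁ N0 g) (hG2 : Gap (fun n => (F.comp (-X)).eval (n : ℤ)) σ₂ N0 g)
    (f : ℤ → ℝ) (hf1 : ∀ v, |f v| ≤ 1) (hfe : ∀ v, f (-v) = f v) (hf0 : f 0 = 0)
    (S x η1 η0 κ ε M1 α β C H : ℝ) (hS : S ^ (k + 1) = x) (hS1 : 1 ≤ S) (hη1 : 0 < η1) (hη11 : η1 ≤ 1) (hκ : 0 < κ)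
    (hε : 0 < ε) (hM1 : M1 = 2 + 6 * κ) (hnS : (nP : ℝ) ≤ S) (hX : 8 * A / η1 ≤ S) (hη0 : 0 < η0) (hη0a : η0 ≤ η1 / (8 * A))
    (hη0b : 32 * κ * η0 ≤ ε * η1) (hN0S : (N0 : ℝ) ≤ η0 * S + 1) (hMS : M1 * S ≤ M) (hC : C = κ * (2 * M1 + 1))
    (hα : 0 ≤ α) (hβ : 0 ≤ β) (hακ : 32 * (α * κ) ≤ ε) (hβH : 64 * β ≤ ε * H) (hH : 16 ≤ ε * H)
    (t : ℤ) (ht : |(t : ℝ)| ≤ x) (ht2 : η1 * x ≤ |(t : ℝ)|)
    (h1 : ∀ Y : ℕ, (Y : ℝ) ≤ C * x → |TW (fun n => w (n : ℤ)) (fun n => F.eval (n : ℤ)) N0 M Y f t| ≤ α * (Y / S ^ k) + β)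
    (h2 : ∀ Y : ℕ, (Y : ℝ) ≤ C * x → |TW (fun n => w (n : ℤ)) (fun n => -F.eval (n : ℤ)) N0 M Y f (-t)| ≤ α * (Y / S ^ k) + β)
    (h3 : ∀ Y : ℕ, (Y : ℝ) ≤ C * x → |TW (fun n => w (-(n : ℤ))) (fun n => (F.comp (-X)).eval (n : ℤ)) N0 M Y f t| ≤ α * (Y / S ^ k) + β)
    (h4 : ∀ Y : ℕ, (Y : ℝ) ≤ C * x → |TW (fun n => w (-(n : ℤ))) (fun n => -(F.comp (-X)).eval (n : ℤ)) N0 M Y f (-t)| ≤ α * (Y / S ^ k) + β)
    (a b : ℤ) (hab : a < b) (hHab : H ≤ (b : ℝ) - a)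
    (hv : ∀ m ∈ Ioc a b, |((F.eval m + t : ℤ) : ℝ)| ≤ κ * (((b : ℝ) - a) * S ^ k)) :
    |∑ m ∈ Ioc a b, w m * f (F.eval m + t)| ≤ ε * ((b : ℝ) - a) := by
  have hS0 : 0 < S := by linarith
  have hSk : 0 < S ^ k := by positivity
  have hAr : (1 : ℝ) ≤ A := by exact_mod_cast hA
  obtain ⟨hm, hlen⟩ := size_hi k nP hk F hgr1 S x κ M1 hS hS1 hκ hM1 hnS t ht a b hab hv
  obtain ⟨h, hh⟩ : ∃ h, h = (b : ℝ) - a := ⟨_, rfl⟩
  rw [← hh] at hHab hv hlen ⊢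
  have hab' : (1 : ℝ) ≤ h := by
    rw [hh]
    have : (a : ℝ) + 1 ≤ b := by exact_mod_cast hab
    linarith
  have hh0 : 0 < h := by linarith
  obtain ⟨V, hV⟩ : ∃ V : ℤ, V = ⌊κ * (h * S ^ k)⌋ := ⟨_, rfl⟩
  have hVr : (V : ℝ) ≤ κ * (h * S ^ k) := by rw [hV]; exact Int.floor_le _
  have hvV : ∀ m ∈ Ioc a b, |F.eval m + t| ≤ V := by
    intro m hm'
    rw [hV]
    apply Int.le_floor.2
    have := hv m hm'
    rwa [← Int.cast_abs] at this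
  have hVC : κ * (h * S ^ k) ≤ C * x := by
    rw [hC, ← hS, pow_succ]
    calc κ * (h * S ^ k) ≤ κ * ((2 * M1 + 1) * S * S ^ k) := by
          apply mul_le_mul_of_nonneg_left _ hκ.le
          exact mul_le_mul_of_nonneg_right hlen hSk.le
      _ = _ := by ring
  obtain ⟨E, hE⟩ : ∃ E, E = α * (κ * h) + β := ⟨_, rfl⟩
  have hE0 : 0 ≤ E := by rw [hE]; positivity
  have hconv : ∀ Y : ℕ, (Y : ℤ) ≤ V → (Y : ℝ) ≤ C * x ∧ α * (Y / S ^ k) + β ≤ E := by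
    intro Y hY
    have hYr : (Y : ℝ) ≤ V := by exact_mod_cast hY
    refine ⟨by linarith, ?_⟩
    rw [hE]
    apply add_le_add _ le_rfl
    apply mul_le_mul_of_nonneg_left _ hα
    rw [div_le_iff₀ hSk]
    have e : κ * h * S ^ k = κ * (h * S ^ k) := by ring
    rw [e]
    linarith
  have hwin1 : |∑ n ∈ Icc (max (a + 1) N0).toNat b.toNat, w (n : ℤ) * f (F.eval (n : ℤ) + t)| ≤ 4 * E := by
    by_cases hb0 : b ≤ 0
    · rw [Icc_eq_empty (by omega), sum_empty, abs_zero]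
      positivity
    apply win_bdw (fun n => w (n : ℤ)) (fun n => F.eval (n : ℤ)) σ₁ hσ₁ N0 g hg hG1 M f hfe hf0 t _ _ (by omega) _ V E hE0
      (fun Y hY => (h1 Y (hconv Y hY).1).trans (hconv Y hY).2) (fun Y hY => (h2 Y (hconv Y hY).1).trans (hconv Y hY).2)
    · intro n hn
      rw [mem_Icc] at hn
      exact hvV n (by rw [mem_Ioc]; omega)
    · have h5 := hm b (by rw [mem_Ioc]; omega)
      rw [abs_of_pos (by omega)] at h5
      have h6 : (b : ℝ) ≤ M := h5.trans hMS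
      have h7 : b ≤ (M : ℤ) := by exact_mod_cast h6
      omega
  have hwin2 : |∑ n ∈ Icc (max (-b) N0).toNat (-a - 1).toNat, w (-(n : ℤ)) * f ((F.comp (-X)).eval (n : ℤ) + t)| ≤ 4 * E := by
    by_cases hb0 : 0 ≤ a + 1
    · rw [Icc_eq_empty (by omega), sum_empty, abs_zero]
      positivity
    apply win_bdw (fun n => w (-(n : ℤ))) (fun n => (F.comp (-X)).eval (n : ℤ)) σ₂ hσ₂ N0 g hg hG2 M f hfe hf0 t _ _ (by omega) _ V E hE0
      (fun Y hY => (h3 Y (hconv Y hY).1).trans (hconv Y hY).2) (fun Y hY => (h4 Y (hconv Y hY).1).trans (hconv Y hY).2)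
    · intro n hn
      rw [mem_Icc] at hn
      have e : (F.comp (-X)).eval (n : ℤ) = F.eval (-(n : ℤ)) := by
        rw [eval_comp, eval_neg, eval_X]
      show |(F.comp (-X)).eval (n : ℤ) + t| ≤ V
      rw [e]
      exact hvV _ (by rw [mem_Ioc]; omega)
    · have h5 := hm (a + 1) (by rw [mem_Ioc]; omega)
      rw [abs_of_neg (by omega)] at h5
      have h6 : ((-(a + 1) : ℤ) : ℝ) ≤ M := h5.trans hMS
      have h7 : -(a + 1) ≤ (M : ℤ) := by exact_mod_cast h6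
      omega
  have hmid : |∑ m ∈ (Ioc a b).filter (fun m => ¬ (N0 : ℤ) ≤ m ∧ ¬ m ≤ -(N0 : ℤ)), w m * f (F.eval m + t)| ≤ ε / 4 * h + ε / 8 * h := by
    rcases lt_or_ge (4 * (κ * h)) (η1 * S) with hc | hc
    · rw [filter_false_of_mem, sum_empty, abs_zero]
      · positivity
      · rintro m hm' ⟨c1, c2⟩
        have h5 := size_lo k A F hA hgr2 S x η1 hS hS1 hη1 hη11 t ht2 hX m (by
          refine (hv m hm').trans ?_
          rw [← hS, pow_succ]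
          calc κ * (h * S ^ k) = (4 * (κ * h)) * S ^ k / 4 := by ring
            _ ≤ (η1 * S) * S ^ k / 4 := by
                apply div_le_div_of_nonneg_right _ (by norm_num)
                exact mul_le_mul_of_nonneg_right hc.le hSk.le
            _ = _ := by ring)
        have h6 : η0 * S ≤ η1 / (8 * A) * S := mul_le_mul_of_nonneg_right hη0a hS0.le
        have h7 : (N0 : ℝ) ≤ ((|m| : ℤ) : ℝ) := by linarith
        have h8 : (N0 : ℤ) ≤ |m| := by exact_mod_cast h7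
        rcases abs_cases m with h9 | h9 <;> omega
    · refine (mid_cardw w hw a b N0 f hf1 F t).trans ?_
      have h5 : 2 * η0 * S ≤ ε / 4 * h := by
        have h6 : 32 * κ * η0 * S ≤ ε * (η1 * S) := by
          calc 32 * κ * η0 * S ≤ ε * η1 * S := mul_le_mul_of_nonneg_right hη0b hS0.le
            _ = _ := by ring
        have h7 : ε * (η1 * S) ≤ ε * (4 * (κ * h)) := mul_le_mul_of_nonneg_left hc hε.le
        have h8 : κ * (32 * (η0 * S)) ≤ κ * (4 * (ε * h)) := by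
          calc κ * (32 * (η0 * S)) = 32 * κ * η0 * S := by ring
            _ ≤ ε * (4 * (κ * h)) := h6.trans h7
            _ = _ := by ring
        have h9 := le_of_mul_le_mul_left h8 hκ
        linarith
      have h6 : ε * H ≤ ε * h := mul_le_mul_of_nonneg_left hHab hε.le
      linarith
  have ecomp : ∀ n : ℕ, (F.comp (-X)).eval (n : ℤ) = F.eval (-(n : ℤ)) := by
    intro n
    rw [eval_comp, eval_neg, eval_X]
  simp only [ecomp] at hwin2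
  have hsplit := three_partsw (fun m => w m * f (F.eval m + t)) a b N0 hN0
  rw [hsplit]
  have h5 := abs_add_three (∑ n ∈ Icc (max (a + 1) N0).toNat b.toNat, w (n : ℤ) * f (F.eval (n : ℤ) + t))
    (∑ n ∈ Icc (max (-b) N0).toNat (-a - 1).toNat, w (-(n : ℤ)) * f (F.eval (-(n : ℤ)) + t))
    (∑ m ∈ (Ioc a b).filter (fun m => ¬ (N0 : ℤ) ≤ m ∧ ¬ m ≤ -(N0 : ℤ)), w m * f (F.eval m + t))
  refine h5.trans ?_
  have h6 : ε * H ≤ ε * h := mul_le_mul_of_nonneg_left hHab hε.le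
  have h7 : 32 * (α * κ) * h ≤ ε * h := mul_le_mul_of_nonneg_right hακ hh0.le
  have h8 : 8 * E = 8 * (α * κ * h) + 8 * β := by rw [hE]; ring
  have h9 : 0 ≤ ε * h := by positivity
  linarith

end Pool.Agent.Q156.BW
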