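import Pool.Agent.Q156.BW.B5
import Pool.Agent.TH892.LW.N6

/-!
All windows at the real zeros, with weights.
-/

set_option autoImplicit false

namespace Pool.Agent.Q156.BW

open Finset Polynomial Filter
open Pool.Agent.TH204.WR (Gap growthZ rt rt_pow evt_log_ge)
open Pool.Agent.TH892.LW (Dav Gap_neg)
open Pool.Agent.Q156.AW

lemma TW_negP (w : ℕ → ℝ) (P : ℤ[X]) (N0 M Y : ℕ) (f : ℤ → ℝ) (t : ℤ) :
    TW w (fun n => (-P).eval (n : ℤ)) N0 M Y f t = TW w (fun n => -P.eval (n : ℤ)) N0 M Y f t := by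
  unfold TW
  apply sum_congr rfl
  intro n _
  show w n * TH204.WR.cutf Y f ((-P).eval (n : ℤ) + t) = w n * TH204.WR.cutf Y f (-P.eval (n : ℤ) + t)
  rw [eval_neg]

theorem core_bdw (k : ℕ) (hk : 1 ≤ k) (F : ℤ[X]) (hF : F.natDegree = k + 1) (κ ε η1 : ℝ) (hκ : 0 < κ) (hε : 0 < ε)
    (hη1 : 0 < η1) (hη11 : η1 ≤ 1) (W : ℕ) (f : ℤ → ℝ) (hf : Dav f) (hfe : ∀ v, f (-v) = f v) (hf0 : f 0 = 0) :
    ∃ K : ℝ, 0 < K ∧ ∃ X0 : ℕ, ∀ x : ℕ, X0 ≤ x → ∀ H : ℝ, 1 ≤ H → H ≤ Real.log x ^ W →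
    ∀ w : ℤ → ℝ, (∀ m, |w m| ≤ 1) →
    ∃ Bad : Finset ℤ, Bad ⊆ Icc (-(x : ℤ)) x ∧ (#Bad : ℝ) ≤ K * (x / H) ∧
    ∀ t ∈ Icc (-(x : ℤ)) x, η1 * x ≤ |(t : ℝ)| → t ∉ Bad → ∀ a b : ℤ, H ≤ (b : ℝ) - a →
      (∀ m ∈ Ioc a b, |((F.eval m + t : ℤ) : ℝ)| ≤ κ * (((b : ℝ) - a) * rt k x ^ k)) →
      |∑ m ∈ Ioc a b, w m * f (F.eval m + t)| ≤ ε * ((b : ℝ) - a) := by
  classical
  have hF' : (F.comp (-X)).natDegree = k + 1 := by
    rw [natDegree_comp, natDegree_neg, natDegree_X, mul_one, hF]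
  have hFn : (-F).natDegree = k + 1 := by rw [natDegree_neg, hF]
  have hFn' : (-(F.comp (-X))).natDegree = k + 1 := by rw [natDegree_neg, hF']
  obtain ⟨nP, A, hnP, hA, hgr1, hgr2, σ₁, σ₂, hσ₁, hσ₂, hgap⟩ := growthZ k hk F hF
  have hAr : (1 : ℝ) ≤ A := by exact_mod_cast hA
  have hA0 : (0 : ℝ) < A := by linarith
  obtain ⟨M1, hM1⟩ : ∃ M1, M1 = 2 + 6 * κ := ⟨_, rfl⟩
  obtain ⟨C, hC⟩ : ∃ C, C = κ * (2 * M1 + 1) := ⟨_, rfl⟩
  have hM11 : 1 ≤ M1 := by linarith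
  have hC0 : 0 < C := by rw [hC]; positivity
  obtain ⟨η0, hη0⟩ : ∃ η0, η0 = min (η1 / (8 * A)) (ε * η1 / (32 * κ)) := ⟨_, rfl⟩
  have hη00 : 0 < η0 := by rw [hη0]; exact lt_min (by positivity) (by positivity)
  have hη0a : η0 ≤ η1 / (8 * A) := by rw [hη0]; exact min_le_left _ _
  have hη0b : 32 * κ * η0 ≤ ε * η1 := by
    have : η0 ≤ ε * η1 / (32 * κ) := by rw [hη0]; exact min_le_right _ _
    rw [le_div_iff₀ (by positivity)] at this
    linarith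
  have hη01 : η0 ≤ 1 := by
    refine hη0a.trans ?_
    rw [div_le_one (by positivity)]
    linarith
  obtain ⟨e, he⟩ : ∃ e : ℝ, e = (1 / η0) ^ k := ⟨_, rfl⟩
  have he1 : 1 ≤ e := by
    rw [he]
    apply one_le_pow₀
    rw [one_le_div hη00]; exact hη01
  have he0 : 0 < e := by linarith
  obtain ⟨c, hc⟩ : ∃ c, c = ε / (64 * κ) := ⟨_, rfl⟩
  have hc0 : 0 < c := by rw [hc]; positivity
  obtain ⟨δ, hδ⟩ : ∃ δ, δ = ε / (64 * κ * e) := ⟨_, rfl⟩
  have hδ0 : 0 < δ := by rw [hδ]; positivity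
  have heδ : e * δ = ε / (64 * κ) := by rw [hδ]; field_simp
  obtain ⟨K1, hK1, X1, h1⟩ := grid_bdw k hk F hF η0 hη00 hη01 M1 hM11 (C + 1) (by linarith) W f hf c δ hc0 hδ0
  obtain ⟨K2, hK2, X2, h2⟩ := grid_bdw k hk (-F) hFn η0 hη00 hη01 M1 hM11 (C + 1) (by linarith) W f hf c δ hc0 hδ0
  obtain ⟨K3, hK3, X3, h3⟩ := grid_bdw k hk (F.comp (-X)) hF' η0 hη00 hη01 M1 hM11 (C + 1) (by linarith) W f hf c δ hc0 hδ0
  obtain ⟨K4, hK4, X4, h4⟩ := grid_bdw k hk (-(F.comp (-X))) hFn' η0 hη00 hη01 M1 hM11 (C + 1) (by linarith) W f hf c δ hc0 hδ0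
  obtain ⟨T, hT⟩ : ∃ T, T = 200 * e * (1 + 1 / ε) := ⟨_, rfl⟩
  have hT0 : 0 < T := by rw [hT]; positivity
  have hT1 : 1 ≤ T := by
    rw [hT]
    have h1ε : 0 < 1 / ε := by positivity
    have : 1 * 1 ≤ e * (1 + 1 / ε) := mul_le_mul he1 (by linarith) (by norm_num) he0.le
    linarith
  have hTε : 200 * e ≤ ε * T := by
    rw [hT]
    have e1 : ε * (200 * e * (1 + 1 / ε)) = 200 * e * ε + 200 * e := by field_simp
    rw [e1]
    have : 0 ≤ 200 * e * ε := by positivity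
    linarith
  obtain ⟨X5, h5⟩ := eventually_atTop.1 (evt_log_ge 1)
  obtain ⟨X6, h6⟩ : ∃ X6 : ℕ, ∀ x : ℕ, X6 ≤ x → 1 + nP + nP / η0 + 8 * A / η1 + 1 / η0 ≤ rt k x := by
    have ht : Tendsto (fun x : ℕ => rt k x) atTop atTop := by
      unfold rt
      exact (tendsto_rpow_atTop (by positivity)).comp tendsto_natCast_atTop_atTop
    exact eventually_atTop.1 (ht.eventually_ge_atTop _)
  refine ⟨6 * T + T * (K1 + K2 + K3 + K4), by positivity, max (max (max X1 X2) (max X3 X4)) (max (max X5 X6) 1), fun x hx H hH1 hHW w hw => ?_⟩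
  have hx1 := le_trans (le_trans (le_trans (le_max_left _ _) (le_max_left _ _)) (le_max_left _ _)) hx
  have hx2 := le_trans (le_trans (le_trans (le_max_right _ _) (le_max_left _ _)) (le_max_left _ _)) hx
  have hx3 := le_trans (le_trans (le_trans (le_max_left _ _) (le_max_right _ _)) (le_max_left _ _)) hx
  have hx4 := le_trans (le_trans (le_trans (le_max_right _ _) (le_max_right _ _)) (le_max_left _ _)) hx
  have hx5 := le_trans (le_trans (le_trans (le_max_left _ _) (le_max_left _ _)) (le_max_right _ _)) hx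
  have hx6 := le_trans (le_trans (le_trans (le_max_right _ _) (le_max_left _ _)) (le_max_right _ _)) hx
  have hx7 : 1 ≤ x := le_trans (le_trans (le_max_right _ _) (le_max_right _ _)) hx
  have hxr : (1 : ℝ) ≤ x := by exact_mod_cast hx7
  have hx0 : (0 : ℝ) < x := by linarith
  have hl1 := h5 x hx5
  have hS6 := h6 x hx6
  clear h5 h6
  have hH0 : 0 < H := by linarith
  rcases lt_or_ge H (2 * T) with hHT | hHT
  · refine ⟨Icc (-(x : ℤ)) x, subset_rfl, ?_, fun t ht _ hb => absurd ht hb⟩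
    rw [Int.card_Icc]
    have e1 : ((x : ℤ) + 1 - -(x : ℤ)).toNat = 2 * x + 1 := by omega
    rw [e1]
    push_cast
    calc 2 * (x : ℝ) + 1 ≤ 3 * x := by linarith
      _ = (3 * H) * (x / H) := by field_simp
      _ ≤ (6 * T + T * (K1 + K2 + K3 + K4)) * (x / H) := by
          apply mul_le_mul_of_nonneg_right _ (by positivity)
          have : 0 ≤ T * (K1 + K2 + K3 + K4) := by positivity
          linarith
  obtain ⟨H', hH'⟩ : ∃ H', H' = H / T := ⟨_, rfl⟩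
  have hH'2 : 2 ≤ H' := by rw [hH', le_div_iff₀ hT0]; exact hHT
  have hH'W : H' ≤ Real.log x ^ W := by
    refine le_trans ?_ hHW
    rw [hH', div_le_iff₀ hT0]
    exact le_mul_of_one_le_right hH0.le hT1
  have hHT' : H = H' * T := by rw [hH']; field_simp
  obtain ⟨B1, hB1, hB1c, g1⟩ := h1 x hx1 H' hH'2 hH'W (fun n => w (n : ℤ)) (fun n => hw _)
  obtain ⟨B2, hB2, hB2c, g2⟩ := h2 x hx2 H' hH'2 hH'W (fun n => w (n : ℤ)) (fun n => hw _)
  obtain ⟨B3, hB3, hB3c, g3⟩ := h3 x hx3 H' hH'2 hH'W (fun n => w (-(n : ℤ))) (fun n => hw _)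
  obtain ⟨B4, hB4, hB4c, g4⟩ := h4 x hx4 H' hH'2 hH'W (fun n => w (-(n : ℤ))) (fun n => hw _)
  clear h1 h2 h3 h4
  have hSp := rt_pow k x
  refine ⟨(B1 ∪ B2.image (fun t => -t)) ∪ (B3 ∪ B4.image (fun t => -t)), ?_, ?_, ?_⟩
  · intro t ht
    simp only [mem_union, mem_image] at ht
    rcases ht with (ht | ⟨s, hs, rfl⟩) | (ht | ⟨s, hs, rfl⟩)
    · exact hB1 ht
    · have := hB2 hs
      rw [mem_Icc] at this ⊢
      omega
    · exact hB3 ht
    · have := hB4 hs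
      rw [mem_Icc] at this ⊢
      omega
  · have c1 := card_union_le (B1 ∪ B2.image (fun t => -t)) (B3 ∪ B4.image (fun t => -t))
    have c2 := card_union_le B1 (B2.image (fun t => -t))
    have c3 := card_union_le B3 (B4.image (fun t => -t))
    have c4 : #(B2.image (fun t : ℤ => -t)) ≤ #B2 := card_image_le
    have c5 : #(B4.image (fun t : ℤ => -t)) ≤ #B4 := card_image_le
    have c6 : #((B1 ∪ B2.image (fun t => -t)) ∪ (B3 ∪ B4.image (fun t => -t))) ≤ #B1 + #B2 + #B3 + #B4 := by omega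
    have c7 : (#((B1 ∪ B2.image (fun t => -t)) ∪ (B3 ∪ B4.image (fun t => -t))) : ℝ) ≤ #B1 + #B2 + #B3 + #B4 := by
      exact_mod_cast c6
    refine c7.trans ?_
    have e1 : (x : ℝ) / H' = T * (x / H) := by rw [hHT']; field_simp
    rw [e1] at hB1c hB2c hB3c hB4c
    have e2 : (6 * T + T * (K1 + K2 + K3 + K4)) * (x / H) =
        6 * (T * (x / H)) + (K1 * (T * (x / H)) + K2 * (T * (x / H)) + K3 * (T * (x / H)) + K4 * (T * (x / H))) := by ring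
    have e3 : 0 ≤ T * (x / H) := by positivity
    rw [e2]
    linarith
  · intro t ht ht1 htB a b hab hv
    simp only [mem_union, mem_image, not_or] at htB
    obtain ⟨⟨b1, b2⟩, b3, b4⟩ := htB
    have b2' : -t ∉ B2 := fun h => b2 ⟨-t, h, neg_neg t⟩
    have b4' : -t ∉ B4 := fun h => b4 ⟨-t, h, neg_neg t⟩
    have htn : -t ∈ Icc (-(x : ℤ)) x := by
      rw [mem_Icc] at ht ⊢
      omega
    have htx : |(t : ℝ)| ≤ x := by
      rw [mem_Icc] at ht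
      have : |t| ≤ (x : ℤ) := abs_le.2 ht
      have h7 : ((|t| : ℤ) : ℝ) ≤ x := by exact_mod_cast this
      rwa [Int.cast_abs] at h7
    replace g1 := g1 t ht b1
    replace g2 := g2 (-t) htn b2'
    replace g3 := g3 t ht b3
    replace g4 := g4 (-t) htn b4'
    simp only [TW_negP] at g2 g4
    clear b1 b2 b3 b4 b2' b4' hB1 hB2 hB3 hB4 hB1c hB2c hB3c hB4c
    obtain ⟨S, hS⟩ : ∃ S, S = rt k x := ⟨_, rfl⟩
    rw [← hS] at g1 g2 g3 g4 hS6 hSp hv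
    have p1 : (0 : ℝ) ≤ nP := Nat.cast_nonneg _
    have p2 : (0 : ℝ) ≤ nP / η0 := by positivity
    have p3 : 0 ≤ 8 * A / η1 := by positivity
    have p4 : 0 ≤ 1 / η0 := by positivity
    have hS1 : 1 ≤ S := by linarith
    have hS0 : 0 < S := by linarith
    obtain ⟨N0, hN0⟩ : ∃ N0, N0 = ⌈η0 * S⌉₊ := ⟨_, rfl⟩
    obtain ⟨M, hM⟩ : ∃ M, M = ⌈M1 * S⌉₊ := ⟨_, rfl⟩
    rw [← hN0, ← hM] at g1 g2 g3 g4
    have hN0r : η0 * S ≤ N0 := by rw [hN0]; exact Nat.le_ceil _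
    have hN0r2 : (N0 : ℝ) ≤ η0 * S + 1 := by rw [hN0]; exact (Nat.ceil_lt_add_one (by positivity)).le
    have hMr : M1 * S ≤ M := by rw [hM]; exact Nat.le_ceil _
    have hN0P : nP ≤ N0 := by
      have q1 : (nP : ℝ) / η0 ≤ S := by linarith
      rw [div_le_iff₀ hη00] at q1
      have : (nP : ℝ) ≤ N0 := by linarith
      exact_mod_cast this
    have hN01 : 1 ≤ N0 := hnP.trans hN0P
    obtain ⟨G1, G2⟩ := hgap N0 hN0P
    have hg1 : 1 ≤ N0 ^ k := Nat.one_le_pow _ _ hN01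
    have hSk1 : 1 ≤ S ^ k := one_le_pow₀ hS1
    have hgR : S ^ k ≤ e * ((N0 ^ k : ℕ) : ℝ) := by
      rw [he]
      push_cast
      rw [← mul_pow]
      apply pow_le_pow_left₀ hS0.le
      rw [one_div, inv_mul_eq_div, le_div_iff₀ hη00]
      linarith
    have hGn1 := Gap_neg _ _ _ _ G1
    have hGn2 := Gap_neg _ _ _ _ G2
    have hσ₁' : -σ₁ = 1 ∨ -σ₁ = -1 := by rcases hσ₁ with h | h <;> simp [h]
    have hσ₂' : -σ₂ = 1 ∨ -σ₂ = -1 := by rcases hσ₂ with h | h <;> simp [h]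
    have hV : ∀ Y : ℕ, (Y : ℝ) ≤ C * x → (Y : ℝ) ≤ (C + 1) * x := fun Y hY => by linarith
    have hab' : a < b := by
      have : (a : ℝ) < b := by linarith
      exact_mod_cast this
    have hακ : 32 * ((c + e * δ) * κ) ≤ ε := by
      rw [heδ, hc]
      have : 32 * ((ε / (64 * κ) + ε / (64 * κ)) * κ) = ε := by field_simp; norm_num
      rw [this]
    have hβH : 64 * (3 * (e * H')) ≤ ε * H := by
      rw [hHT']
      have q1 : 0 ≤ H' * (ε * T - 200 * e) := mul_nonneg (by linarith) (by linarith)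
      have q2 : ε * (H' * T) = H' * (ε * T - 200 * e) + 200 * (e * H') := by ring
      have q3 : 0 ≤ e * H' := by positivity
      rw [q2]
      linarith
    have h16 : 16 ≤ ε * H := by
      refine le_trans ?_ hβH
      have q1 : 1 * 2 ≤ e * H' := mul_le_mul he1 hH'2 (by norm_num) he0.le
      linarith
    have hη0S : (nP : ℝ) ≤ S := by linarith
    have hXS : 8 * A / η1 ≤ S := by linarith
    have hc' : 0 < c + e * δ := by positivity
    have hβ0 : 0 ≤ 3 * (e * H') := by positivity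
    obtain ⟨i1, i2⟩ := hf
    exact one_tw w hw k nP A N0 M (N0 ^ k) hk hA F hgr1 hgr2 σ₁ σ₂ hσ₁ hσ₂ hg1 hN01 G1 G2 f i1 hfe hf0 S x η1 η0 κ ε M1
      (c + e * δ) (3 * (e * H')) C H hSp hS1 hη1 hη11 hκ hε hM1 hη0S hXS hη00 hη0a hη0b hN0r2 hMr hC hc'.le hβ0
      hακ hβH h16 t htx ht1
      (fun Y hY => interp_bdw (fun n => w (n : ℤ)) (fun n => hw _) _ σ₁ hσ₁ N0 M (N0 ^ k) hg1 G1 t f i1 (S ^ k) H' δ c e _ hSk1 hH'2 hδ0 hc0 he1 hgR g1 Y (hV Y hY))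
      (fun Y hY => interp_bdw (fun n => w (n : ℤ)) (fun n => hw _) _ (-σ₁) hσ₁' N0 M (N0 ^ k) hg1 hGn1 (-t) f i1 (S ^ k) H' δ c e _ hSk1 hH'2 hδ0 hc0 he1 hgR g2 Y (hV Y hY))
      (fun Y hY => interp_bdw (fun n => w (-(n : ℤ))) (fun n => hw _) _ σ₂ hσ₂ N0 M (N0 ^ k) hg1 G2 t f i1 (S ^ k) H' δ c e _ hSk1 hH'2 hδ0 hc0 he1 hgR g3 Y (hV Y hY))
      (fun Y hY => interp_bdw (fun n => w (-(n : ℤ))) (fun n => hw _) _ (-σ₂) hσ₂' N0 M (N0 ^ k) hg1 hGn2 (-t) f i1 (S ^ k) H' δ c e _ hSk1 hH'2 hδ0 hc0 he1 hgR g4 Y (hV Y hY))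
      a b hab' hab hv

end Pool.Agent.Q156.BW
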