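import Pool.Agent.Q156.BW.B6
import Pool.Agent.TH892.LW.N7

/-!
Complex weights.
-/

set_option autoImplicit false

namespace Pool.Agent.Q156.BW

open Finset Polynomial Filter
open Pool.Agent.TH204.WR (rt)
open Pool.Agent.TH892.LW (Dav)

theorem core_c (k : ℕ) (hk : 1 ≤ k) (F : ℤ[X]) (hF : F.natDegree = k + 1) (κ ε η : ℝ) (hκ : 0 < κ) (hε : 0 < ε)
    (hη : 0 < η) (W : ℕ) (f : ℤ → ℝ) (hf : Dav f) (hfe : ∀ v, f (-v) = f v) (hf0 : f 0 = 0) :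
    ∃ K : ℝ, 0 < K ∧ ∃ X0 : ℕ, ∀ x : ℕ, X0 ≤ x → ∀ H : ℝ, 1 ≤ H → H ≤ Real.log x ^ W →
    ∀ w : ℤ → ℂ, (∀ m, ‖w m‖ ≤ 1) →
    ∃ Bad : Finset ℤ, Bad ⊆ Icc (-(x : ℤ)) x ∧ (#Bad : ℝ) ≤ K * (x / H) ∧
    ∀ t ∈ Icc (-(x : ℤ)) x, η * x ≤ |(t : ℝ)| → t ∉ Bad → ∀ a b : ℤ, H ≤ (b : ℝ) - a →
      (∀ m ∈ Ioc a b, |((F.eval m + t : ℤ) : ℝ)| ≤ κ * (((b : ℝ) - a) * rt k x ^ k)) →
      ‖∑ m ∈ Ioc a b, w m * ((f (F.eval m + t) : ℝ) : ℂ)‖ ≤ ε * ((b : ℝ) - a) := by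
  classical
  obtain ⟨η', hη'⟩ : ∃ η', η' = min η 1 := ⟨_, rfl⟩
  have hη'0 : 0 < η' := by rw [hη']; exact lt_min hη one_pos
  have hη'1 : η' ≤ 1 := by rw [hη']; exact min_le_right _ _
  have hη'2 : η' ≤ η := by rw [hη']; exact min_le_left _ _
  obtain ⟨K, hK, X0, h⟩ := core_bdw k hk F hF κ (ε / 2) η' hκ (by positivity) hη'0 hη'1 W f hf hfe hf0
  refine ⟨2 * K, by positivity, X0, fun x hx H hH1 hHW w hw => ?_⟩
  have hre : ∀ m, |(w m).re| ≤ 1 := fun m => (Complex.abs_re_le_norm _).trans (hw m)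
  have him : ∀ m, |(w m).im| ≤ 1 := fun m => (Complex.abs_im_le_norm _).trans (hw m)
  obtain ⟨B1, hB1, hB1c, g1⟩ := h x hx H hH1 hHW (fun m => (w m).re) hre
  obtain ⟨B2, hB2, hB2c, g2⟩ := h x hx H hH1 hHW (fun m => (w m).im) him
  refine ⟨B1 ∪ B2, union_subset hB1 hB2, ?_, fun t ht ht1 htB a b hab hv => ?_⟩
  · have c1 : (#(B1 ∪ B2) : ℝ) ≤ #B1 + #B2 := by exact_mod_cast card_union_le _ _
    linarith
  rw [mem_union, not_or] at htB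
  have hxr : (0 : ℝ) ≤ x := Nat.cast_nonneg _
  have ht1' : η' * x ≤ |(t : ℝ)| := le_trans (mul_le_mul_of_nonneg_right hη'2 hxr) ht1
  have a1 := g1 t ht ht1' htB.1 a b hab hv
  have a2 := g2 t ht ht1' htB.2 a b hab hv
  refine (Complex.norm_le_abs_re_add_abs_im _).trans ?_
  have e1 : (∑ m ∈ Ioc a b, w m * ((f (F.eval m + t) : ℝ) : ℂ)).re = ∑ m ∈ Ioc a b, (w m).re * f (F.eval m + t) := by
    rw [Complex.re_sum]
    refine sum_congr rfl fun m _ => ?_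
    rw [Complex.re_mul_ofReal]
  have e2 : (∑ m ∈ Ioc a b, w m * ((f (F.eval m + t) : ℝ) : ℂ)).im = ∑ m ∈ Ioc a b, (w m).im * f (F.eval m + t) := by
    rw [Complex.im_sum]
    refine sum_congr rfl fun m _ => ?_
    rw [Complex.im_mul_ofReal]
  rw [e1, e2]
  linarith

end Pool.Agent.Q156.BW
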