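import Pool.Agent.Q156.BW.B6
import Pool.Agent.Q156.AW.A6

/-!
All windows of length at least a power of the logarithm, with savings of arbitrary powers of the logarithm
and arbitrary weights, for an even function; the values may have both signs.
-/

set_option autoImplicit false

namespace Pool.Agent.Q156.BW

open Finset Filter Topology Polynomial
open Pool.Agent.TH892.SW (gr)
open Pool.Agent.TH204.WR (Gap growthZ rt rt_pow evt_log_ge evt_log_pow EE small_shifts)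
open Pool.Agent.TH892.LW (Gap_neg)
open Pool.Agent.Q156.AW

/-- from the grid to all cutoffs, with rates -/
lemma grid_all (w : ℕ → ℝ) (hw : ∀ n, |w n| ≤ 1) (G : ℕ → ℤ) (σ : ℤ) (hσ : σ = 1 ∨ σ = -1) (N0 M k g c1 B U1 : ℕ)
    (hN01 : 1 ≤ N0) (hG : Gap G σ N0 (N0 ^ k)) (f : ℤ → ℝ) (hf : ∀ v, |f v| ≤ 1) (t : ℤ) (L S Ymax : ℝ) (hL : 100 ≤ L)
    (hS1 : 1 ≤ S) (hN0S : S / L ^ c1 ≤ N0) (hg : c1 * k + U1 + 1 ≤ g)
    (hT : ∀ j : ℕ, S ^ k * L ^ B ≤ gr (L ^ g) j → (gr (L ^ g) j : ℝ) ≤ Ymax →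
        |TW w G N0 M (gr (L ^ g) j) f t| ≤ gr (L ^ g) j * (1 / (S ^ k * L ^ U1)))
    (Y : ℕ) (hY : (Y : ℝ) ≤ Ymax) :
    |TW w G N0 M Y f t| ≤ 2 / L ^ U1 * (Y / S ^ k) + L ^ (B + c1 * k + 1) := by
  have hL0 : 0 < L := by linarith
  have hL1 : 1 ≤ L := by linarith
  have hLp0 : ∀ n : ℕ, 0 < L ^ n := fun n => by positivity
  have hLp : ∀ n : ℕ, 1 ≤ L ^ n := fun n => one_le_pow₀ hL1
  have hLL : ∀ {i j : ℕ}, i ≤ j → L ^ i ≤ L ^ j := fun h => pow_le_pow_right₀ hL1 h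
  have hS0 : 0 < S := by linarith
  have hSk0 : 0 < S ^ k := by positivity
  have hSk1 : 1 ≤ S ^ k := one_le_pow₀ hS1
  have hYr : (0 : ℝ) ≤ Y := Nat.cast_nonneg _
  have hg1 : 1 ≤ N0 ^ k := Nat.one_le_pow _ _ hN01
  have hgam : 2 ≤ L ^ g := by
    have : L ^ 1 ≤ L ^ g := hLL (by omega)
    rw [pow_one] at this
    linarith
  have h1 := TW_all w hw G σ hσ N0 (N0 ^ k) hg1 hG M f t 1 (L ^ g) (1 / (S ^ k * L ^ U1)) (S ^ k * L ^ B) Ymax hf hgam
    (by positivity) (one_le_mul_of_one_le_of_one_le hSk1 (hLp B)) hT Y hY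
  refine h1.trans ?_
  have hgr : S ^ k / L ^ (c1 * k) ≤ ((N0 ^ k : ℕ) : ℝ) := by
    push_cast
    rw [pow_mul, ← div_pow]
    exact pow_le_pow_left₀ (by positivity) hN0S k
  have hN0k : (0 : ℝ) < ((N0 ^ k : ℕ) : ℝ) := by exact_mod_cast hg1
  have hinv : 1 / ((N0 ^ k : ℕ) : ℝ) ≤ L ^ (c1 * k) / S ^ k := by
    rw [div_le_div_iff₀ hN0k hSk0, one_mul]
    rw [div_le_iff₀ (hLp0 _)] at hgr
    linarith
  have a1 : (Y : ℝ) * (1 / (S ^ k * L ^ U1)) = 1 / L ^ U1 * (Y / S ^ k) := by field_simp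
  have a2 : ((Y : ℝ) / (L ^ g) ^ 2 + 1) / ((N0 ^ k : ℕ) : ℝ) + 1 ≤ 1 / L ^ U1 * (Y / S ^ k) + L ^ (c1 * k) + 1 := by
    have b1 : ((Y : ℝ) / (L ^ g) ^ 2 + 1) / ((N0 ^ k : ℕ) : ℝ) ≤ ((Y : ℝ) / (L ^ g) ^ 2 + 1) * (L ^ (c1 * k) / S ^ k) := by
      rw [div_eq_mul_one_div]
      exact mul_le_mul_of_nonneg_left hinv (by positivity)
    have b2 : (Y : ℝ) / (L ^ g) ^ 2 * (L ^ (c1 * k) / S ^ k) ≤ 1 / L ^ U1 * (Y / S ^ k) := by
      have b3 : L ^ (c1 * k) / (L ^ g) ^ 2 ≤ 1 / L ^ U1 := by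
        rw [div_le_div_iff₀ (by positivity) (hLp0 _), one_mul, ← pow_add, ← pow_mul]
        exact hLL (by omega)
      calc (Y : ℝ) / (L ^ g) ^ 2 * (L ^ (c1 * k) / S ^ k) = (L ^ (c1 * k) / (L ^ g) ^ 2) * (Y / S ^ k) := by ring
        _ ≤ 1 / L ^ U1 * (Y / S ^ k) := mul_le_mul_of_nonneg_right b3 (by positivity)
    have b4 : 1 * (L ^ (c1 * k) / S ^ k) ≤ L ^ (c1 * k) := by
      rw [one_mul]
      exact div_le_self (hLp0 _).le hSk1
    have b5 : ((Y : ℝ) / (L ^ g) ^ 2 + 1) * (L ^ (c1 * k) / S ^ k) =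
      (Y : ℝ) / (L ^ g) ^ 2 * (L ^ (c1 * k) / S ^ k) + 1 * (L ^ (c1 * k) / S ^ k) := by ring
    linarith
  have a3 : (2 * (S ^ k * L ^ B) + 2) / ((N0 ^ k : ℕ) : ℝ) + 1 ≤ 4 * L ^ (B + c1 * k) + 1 := by
    have b1 : (2 * (S ^ k * L ^ B) + 2) / ((N0 ^ k : ℕ) : ℝ) ≤ (4 * (S ^ k * L ^ B)) * (L ^ (c1 * k) / S ^ k) := by
      rw [div_eq_mul_one_div]
      apply mul_le_mul _ hinv (by positivity) (by positivity)
      have := one_le_mul_of_one_le_of_one_le hSk1 (hLp B)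
      linarith
    have b2 : (4 * (S ^ k * L ^ B)) * (L ^ (c1 * k) / S ^ k) = 4 * L ^ (B + c1 * k) := by
      rw [pow_add]; field_simp
    linarith
  have a4 : L ^ (c1 * k) + 1 + (4 * L ^ (B + c1 * k) + 1) ≤ L ^ (B + c1 * k + 1) := by
    have b1 : L ^ (c1 * k) ≤ L ^ (B + c1 * k) := hLL (by omega)
    have b2 := hLp (B + c1 * k)
    have b3 : 7 * L ^ (B + c1 * k) ≤ L ^ (B + c1 * k + 1) := by
      rw [pow_succ]
      have := mul_le_mul_of_nonneg_left (show (7 : ℝ) ≤ L by linarith) (hLp0 (B + c1 * k)).le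
      linarith
    linarith
  have a5 : 2 / L ^ U1 * ((Y : ℝ) / S ^ k) = 1 / L ^ U1 * (Y / S ^ k) + 1 / L ^ U1 * (Y / S ^ k) := by ring
  rw [a1, a5, one_mul, one_mul]
  linarith

theorem core_rate (k : ℕ) (hk : 1 ≤ k) (F : ℤ[X]) (hF : F.natDegree = k + 1) (U C : ℕ) :
    ∃ Bf A X0 : ℕ, ∀ x : ℕ, X0 ≤ x → ∀ f : ℤ → ℝ, (∀ y, |f y| ≤ 1) → (∀ v, f (-v) = f v) → f 0 = 0 →
    (∀ Y : ℕ, rt k x ^ k ≤ Y → (Y : ℝ) ≤ x * Real.log x ^ (2 * C + 1) → ∀ α : ℝ, ‖EE Y f α‖ ≤ Y / Real.log Y ^ A) →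
    ∀ w : ℤ → ℝ, (∀ m, |w m| ≤ 1) → ∃ Bad : Finset ℤ, Bad ⊆ Icc (-(x : ℤ)) x ∧
    (#Bad : ℝ) ≤ x / Real.log x ^ U ∧ ∀ t ∈ Icc (-(x : ℤ)) x, t ∉ Bad →
    ∀ a b : ℤ, Real.log x ^ Bf ≤ (b : ℝ) - a →
      (∀ m ∈ Ioc a b, |((F.eval m + t : ℤ) : ℝ)| ≤ ((b : ℝ) - a) * (rt k x ^ k * Real.log x ^ C)) →
      |∑ m ∈ Ioc a b, w m * f (F.eval m + t)| ≤ ((b : ℝ) - a) / Real.log x ^ U := by
  classical
  have hF' : (F.comp (-X)).natDegree = k + 1 := by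
    rw [natDegree_comp, natDegree_neg, natDegree_X, mul_one, hF]
  have hFn : (-F).natDegree = k + 1 := by rw [natDegree_neg, hF]
  have hFn' : (-(F.comp (-X))).natDegree = k + 1 := by rw [natDegree_neg, hF']
  obtain ⟨nP, A, hnP, hA, hgr1, hgr2, σ₁, σ₂, hσ₁, hσ₂, hgap⟩ := growthZ k hk F hF
  obtain ⟨U1, hU1⟩ : ∃ U1, U1 = C + U + 1 := ⟨_, rfl⟩
  obtain ⟨c1, hc1⟩ : ∃ c1, c1 = C + 2 * U + 4 := ⟨_, rfl⟩
  obtain ⟨g, hg⟩ : ∃ g, g = c1 * k + U1 + 1 := ⟨_, rfl⟩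
  obtain ⟨B1, A1, X1, hX1⟩ := TW_most k hk F hF U1 (U + 2 * g + 4) c1 (C + 2) (2 * C + 1)
  obtain ⟨B2, A2, X2, hX2⟩ := TW_most k hk (-F) hFn U1 (U + 2 * g + 4) c1 (C + 2) (2 * C + 1)
  obtain ⟨B3, A3, X3, hX3⟩ := TW_most k hk (F.comp (-X)) hF' U1 (U + 2 * g + 4) c1 (C + 2) (2 * C + 1)
  obtain ⟨B4, A4, X4, hX4⟩ := TW_most k hk (-(F.comp (-X))) hFn' U1 (U + 2 * g + 4) c1 (C + 2) (2 * C + 1)
  obtain ⟨B, hB⟩ : ∃ B, B = B1 + B2 + B3 + B4 := ⟨_, rfl⟩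
  obtain ⟨AA, hAA⟩ : ∃ AA, AA = A1 + A2 + A3 + A4 := ⟨_, rfl⟩
  have hAr : (1 : ℝ) ≤ A := by exact_mod_cast hA
  have hev : ∀ᶠ x : ℕ in atTop, (10000 + 100 * (A : ℝ) + 4 * nP) ≤ Real.log x ∧
      Real.log x ^ (c1 + 2 * C + U + 8) ≤ (x : ℝ) ^ ((1 : ℝ) / (k + 1)) := by
    filter_upwards [evt_log_ge (10000 + 100 * (A : ℝ) + 4 * nP),
      evt_log_pow (c1 + 2 * C + U + 8) ((1 : ℝ) / (k + 1)) (by positivity)] with x h1 h2
    exact ⟨h1, h2⟩
  obtain ⟨X5, hX5⟩ := eventually_atTop.1 hev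
  refine ⟨B + c1 * k + U + 2, AA, max (max (max X1 X2) (max X3 X4)) (max X5 1), fun x hx f hff hfe hf0 hfY w hw => ?_⟩
  have gx1 := le_trans (le_trans (le_trans (le_max_left _ _) (le_max_left _ _)) (le_max_left _ _)) hx
  have gx2 := le_trans (le_trans (le_trans (le_max_right _ _) (le_max_left _ _)) (le_max_left _ _)) hx
  have gx3 := le_trans (le_trans (le_trans (le_max_left _ _) (le_max_right _ _)) (le_max_left _ _)) hx
  have gx4 := le_trans (le_trans (le_trans (le_max_right _ _) (le_max_right _ _)) (le_max_left _ _)) hx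
  have gx5 : X5 ≤ x := le_trans (le_trans (le_max_left _ _) (le_max_right _ _)) hx
  have gx6 : 1 ≤ x := le_trans (le_trans (le_max_right _ _) (le_max_right _ _)) hx
  obtain ⟨hL, hLS⟩ := hX5 x gx5
  have hSr : rt k x = (x : ℝ) ^ ((1 : ℝ) / (k + 1)) := rfl
  rw [← hSr] at hLS
  have hSx := rt_pow k x
  have hTX1 := hX1 x gx1
  have hTX2 := hX2 x gx2
  have hTX3 := hX3 x gx3
  have hTX4 := hX4 x gx4
  clear hX1 hX2 hX3 hX4 hX5 hev hx gx1 gx2 gx3 gx4 gx5 hSr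
  obtain ⟨L, hLd⟩ : ∃ L, L = Real.log x := ⟨_, rfl⟩
  rw [← hLd] at hL hLS hTX1 hTX2 hTX3 hTX4 hfY ⊢
  obtain ⟨S, hS⟩ : ∃ S, S = rt k x := ⟨_, rfl⟩
  rw [← hS] at hLS hTX1 hTX2 hTX3 hTX4 hSx hfY ⊢
  obtain ⟨N0, hN0⟩ : ∃ N0, N0 = ⌈S / L ^ c1⌉₊ := ⟨_, rfl⟩
  obtain ⟨M, hM⟩ : ∃ M, M = ⌊S * L ^ (C + 2)⌋₊ := ⟨_, rfl⟩
  rw [← hN0, ← hM] at hTX1 hTX2 hTX3 hTX4
  have q3 : (0 : ℝ) ≤ nP := Nat.cast_nonneg _
  have hL4 : 10000 ≤ L := by linarith
  have hLA : 100 * (A : ℝ) ≤ L := by linarith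
  have hL0 : 0 < L := by linarith
  have hL1 : 1 ≤ L := by linarith
  have hLp0 : ∀ n : ℕ, 0 < L ^ n := fun n => by positivity
  have hLp : ∀ n : ℕ, 1 ≤ L ^ n := fun n => one_le_pow₀ hL1
  have hLL : ∀ {i j : ℕ}, i ≤ j → L ^ i ≤ L ^ j := fun h => pow_le_pow_right₀ hL1 h
  have hxr : (1 : ℝ) ≤ x := by exact_mod_cast gx6
  have hx0 : (0 : ℝ) < x := by linarith
  have hLS' : ∀ i : ℕ, i ≤ c1 + 2 * C + U + 8 → L ^ i ≤ S := fun i hi => (hLL hi).trans hLS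
  have hS1 : 1 ≤ S := (hLp 0).trans (hLS' 0 (by omega))
  have hS0 : 0 < S := by linarith
  have hSk0 : 0 < S ^ k := by positivity
  have hSk1 : S ≤ S ^ k := le_self_pow₀ hS1 (by omega)
  have hSx' : S ≤ x := by rw [← hSx]; exact le_self_pow₀ hS1 (by omega)
  have hX2' : x * L ^ (2 * C + 1) + 1 ≤ (x : ℝ) ^ 2 := by
    have h1 : L ^ (2 * C + 1) * 2 ≤ S := by
      calc L ^ (2 * C + 1) * 2 ≤ L ^ (2 * C + 1) * L := by
            apply mul_le_mul_of_nonneg_left _ (hLp0 _).le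
            linarith
        _ = L ^ (2 * C + 2) := by ring
        _ ≤ S := hLS' _ (by omega)
    calc x * L ^ (2 * C + 1) + 1 ≤ x * L ^ (2 * C + 1) + x * L ^ (2 * C + 1) := by
          have := one_le_mul_of_one_le_of_one_le hxr (hLp (2 * C + 1))
          linarith
      _ = x * (L ^ (2 * C + 1) * 2) := by ring
      _ ≤ x * x := by
          apply mul_le_mul_of_nonneg_left _ hx0.le
          linarith
      _ = (x : ℝ) ^ 2 := by ring
  have hlogY : ∀ Y : ℝ, S ^ k ≤ Y → 1 ≤ Real.log Y := by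
    intro Y hY
    have h1 : L ≤ Y := by
      have h2 : L ^ 1 ≤ S := hLS' 1 (by omega)
      rw [pow_one] at h2
      linarith
    rw [Real.le_log_iff_exp_le (by linarith)]
    have := Real.exp_one_lt_d9
    linarith
  -- the bounds for `f`
  have hfA : ∀ Y : ℕ, ∀ A' B' : ℕ, A' ≤ AA → S ^ k * L ^ B' ≤ Y → (Y : ℝ) ≤ x * L ^ (2 * C + 1) →
      (∀ α : ℝ, ‖EE Y f α‖ ≤ Y / Real.log Y ^ A') := by
    intro Y A' B' hA' hY1 hY2 α
    have hY3 : S ^ k ≤ Y := le_trans (le_mul_of_one_le_right hSk0.le (hLp B')) hY1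
    refine (hfY Y hY3 hY2 α).trans ?_
    have h1 := hlogY Y hY3
    apply div_le_div_of_nonneg_left (Nat.cast_nonneg _) (by positivity)
    exact pow_le_pow_right₀ h1 hA'
  have hfs : ∀ Y : ℕ, ∀ B' : ℕ, S ^ k * L ^ B' ≤ Y → ∑ u ∈ Icc (1 : ℤ) Y, f u ^ 2 ≤ 9 * Y * Real.log Y ^ 2 := by
    intro Y B' hY1
    have hY3 : S ^ k ≤ Y := le_trans (le_mul_of_one_le_right hSk0.le (hLp B')) hY1
    refine (Pool.Agent.TH892.LW.sq_dav f hff Y).trans ?_
    have h1 : 1 ≤ Real.log Y ^ 2 := one_le_pow₀ (hlogY Y hY3)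
    have h2 : (0 : ℝ) ≤ Y := Nat.cast_nonneg _
    have h3 : (Y : ℝ) * 1 ≤ 9 * Y * Real.log Y ^ 2 := by
      calc (Y : ℝ) * 1 ≤ (9 * Y) * 1 := by linarith
        _ ≤ (9 * Y) * Real.log Y ^ 2 := mul_le_mul_of_nonneg_left h1 (by positivity)
    linarith
  have hmono : ∀ B' : ℕ, B' ≤ B → ∀ Y : ℝ, S ^ k * L ^ B ≤ Y → S ^ k * L ^ B' ≤ Y := fun B' hB' Y h =>
    le_trans (mul_le_mul_of_nonneg_left (hLL hB') hSk0.le) h
  obtain ⟨Bt1, hBs1, hBc1, hBg1⟩ := bad_grid_w x g U (2 * C + 1) B U1 N0 M (fun n : ℕ => w (n : ℤ))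
    (fun n => F.eval (n : ℤ)) f L (S ^ k)
    hL4 hSk0 (fun Y hY1 hY2 => hTX1 Y (hmono B1 (by omega) Y hY1) hY2 f (hfA Y A1 B (by omega) hY1 hY2)
      (hfs Y B hY1) _ (fun n => hw _)) hX2' hx0 hLd
  obtain ⟨Bt2, hBs2, hBc2, hBg2⟩ := bad_grid_w x g U (2 * C + 1) B U1 N0 M (fun n : ℕ => w (n : ℤ))
    (fun n => (-F).eval (n : ℤ)) f L (S ^ k)
    hL4 hSk0 (fun Y hY1 hY2 => hTX2 Y (hmono B2 (by omega) Y hY1) hY2 f (hfA Y A2 B (by omega) hY1 hY2)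
      (hfs Y B hY1) _ (fun n => hw _)) hX2' hx0 hLd
  obtain ⟨Bt3, hBs3, hBc3, hBg3⟩ := bad_grid_w x g U (2 * C + 1) B U1 N0 M (fun n : ℕ => w (-(n : ℤ)))
    (fun n => (F.comp (-X)).eval (n : ℤ)) f L (S ^ k)
    hL4 hSk0 (fun Y hY1 hY2 => hTX3 Y (hmono B3 (by omega) Y hY1) hY2 f (hfA Y A3 B (by omega) hY1 hY2)
      (hfs Y B hY1) _ (fun n => hw _)) hX2' hx0 hLd
  obtain ⟨Bt4, hBs4, hBc4, hBg4⟩ := bad_grid_w x g U (2 * C + 1) B U1 N0 M (fun n : ℕ => w (-(n : ℤ)))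
    (fun n => (-(F.comp (-X))).eval (n : ℤ)) f L (S ^ k)
    hL4 hSk0 (fun Y hY1 hY2 => hTX4 Y (hmono B4 (by omega) Y hY1) hY2 f (hfA Y A4 B (by omega) hY1 hY2)
      (hfs Y B hY1) _ (fun n => hw _)) hX2' hx0 hLd
  obtain ⟨Bs, hBs⟩ : ∃ Bs, Bs = (Icc (-(x : ℤ)) x).filter (fun t : ℤ => |(t : ℝ)| ≤ x / L ^ (U + 2)) := ⟨_, rfl⟩
  have hxL : 1 ≤ (x : ℝ) / L ^ (U + 2) := by
    rw [one_le_div (hLp0 _)]
    exact (hLS' _ (by omega)).trans hSx'
  have hBsc : (#Bs : ℝ) ≤ 3 * (x / L ^ (U + 2)) := by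
    rw [hBs]
    exact small_shifts x _ hxL
  refine ⟨(Bt1 ∪ Bt2.image (fun t => -t)) ∪ (Bt3 ∪ Bt4.image (fun t => -t)) ∪ Bs, ?_, ?_, ?_⟩
  · intro t ht
    simp only [mem_union, mem_image] at ht
    rcases ht with ((ht | ⟨s, hs, rfl⟩) | (ht | ⟨s, hs, rfl⟩)) | ht
    · exact hBs1 ht
    · have := hBs2 hs
      rw [mem_Icc] at this ⊢
      omega
    · exact hBs3 ht
    · have := hBs4 hs
      rw [mem_Icc] at this ⊢
      omega
    · rw [hBs] at ht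
      exact (mem_filter.1 ht).1
  · have h1 : (#((Bt1 ∪ Bt2.image (fun t => -t)) ∪ (Bt3 ∪ Bt4.image (fun t => -t)) ∪ Bs) : ℝ) ≤
        #Bt1 + #Bt2 + #Bt3 + #Bt4 + #Bs := by
      have h2 := card_union_le ((Bt1 ∪ Bt2.image (fun t => -t)) ∪ (Bt3 ∪ Bt4.image (fun t => -t))) Bs
      have h3 := card_union_le (Bt1 ∪ Bt2.image (fun t => -t)) (Bt3 ∪ Bt4.image (fun t => -t))
      have h4 := card_union_le Bt1 (Bt2.image (fun t => -t))
      have h5 := card_union_le Bt3 (Bt4.image (fun t => -t))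
      have h6 : #(Bt2.image (fun t : ℤ => -t)) ≤ #Bt2 := card_image_le
      have h7 : #(Bt4.image (fun t : ℤ => -t)) ≤ #Bt4 := card_image_le
      exact_mod_cast (by omega : #((Bt1 ∪ Bt2.image (fun t => -t)) ∪ (Bt3 ∪ Bt4.image (fun t => -t)) ∪ Bs) ≤
        #Bt1 + #Bt2 + #Bt3 + #Bt4 + #Bs)
    refine h1.trans ?_
    have h2 : 7 * (x / L ^ (U + 2)) ≤ x / L ^ U := by
      have e1 : (x : ℝ) / L ^ U = L ^ 2 * (x / L ^ (U + 2)) := by
        rw [pow_add]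
        have := (hLp0 U).ne'
        field_simp
      rw [e1]
      apply mul_le_mul_of_nonneg_right _ (by positivity)
      nlinarith
    linarith
  · intro t ht htB a b hH1 hv
    simp only [mem_union, mem_image, not_or] at htB
    obtain ⟨⟨⟨b1, b2⟩, b3, b4⟩, b5⟩ := htB
    have b2' : -t ∉ Bt2 := fun h => b2 ⟨-t, h, neg_neg t⟩
    have b4' : -t ∉ Bt4 := fun h => b4 ⟨-t, h, neg_neg t⟩
    have htn : -t ∈ Icc (-(x : ℤ)) x := by
      rw [mem_Icc] at ht ⊢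
      omega
    have htx : |(t : ℝ)| ≤ x := by
      rw [mem_Icc] at ht
      have : |t| ≤ (x : ℤ) := abs_le.2 ht
      have h7 : ((|t| : ℤ) : ℝ) ≤ x := by exact_mod_cast this
      rwa [Int.cast_abs] at h7
    have ht1 : 1 / L ^ (U + 2) * x ≤ |(t : ℝ)| := by
      by_contra hcon
      push Not at hcon
      apply b5
      rw [hBs, mem_filter]
      refine ⟨ht, ?_⟩
      rw [one_div_mul_eq_div] at hcon
      exact hcon.le
    replace hBg1 := hBg1 t ht b1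
    replace hBg2 := hBg2 (-t) htn b2'
    replace hBg3 := hBg3 t ht b3
    replace hBg4 := hBg4 (-t) htn b4'
    simp only [TW_negP] at hBg2 hBg4
    clear b1 b2 b3 b4 b2' b4' b5 hBs1 hBs2 hBs3 hBs4 hBc1 hBc2 hBc3 hBc4 hTX1 hTX2 hTX3 hTX4
    have hSL : L ≤ S / L ^ c1 := by
      rw [le_div_iff₀ (hLp0 _), ← pow_succ']
      exact hLS' _ (by omega)
    have hN0S : S / L ^ c1 ≤ N0 := by rw [hN0]; exact Nat.le_ceil _
    have hN0S2 : (N0 : ℝ) ≤ 1 / L ^ c1 * S + 1 := by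
      rw [hN0, one_div_mul_eq_div]
      exact (Nat.ceil_lt_add_one (by positivity)).le
    have hN0P : nP ≤ N0 := by
      have : (nP : ℝ) ≤ N0 := by linarith
      exact_mod_cast this
    have hN01 : 1 ≤ N0 := hnP.trans hN0P
    obtain ⟨G1, G2⟩ := hgap N0 hN0P
    have hg1 : 1 ≤ N0 ^ k := Nat.one_le_pow _ _ hN01
    have hGn1 := Gap_neg _ _ _ _ G1
    have hGn2 := Gap_neg _ _ _ _ G2
    have hσ₁' : -σ₁ = 1 ∨ -σ₁ = -1 := by rcases hσ₁ with h | h <;> simp [h]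
    have hσ₂' : -σ₂ = 1 ∨ -σ₂ = -1 := by rcases hσ₂ with h | h <;> simp [h]
    have hL100 : 100 ≤ L := by linarith
    have k1 := grid_all (fun n => w (n : ℤ)) (fun n => hw _) _ σ₁ hσ₁ N0 M k g c1 B U1 hN01 G1 f hff t L S
      (x * L ^ (2 * C + 1)) hL100 hS1 hN0S (by omega) hBg1
    have k2 := grid_all (fun n => w (n : ℤ)) (fun n => hw _) _ (-σ₁) hσ₁' N0 M k g c1 B U1 hN01 hGn1 f hff (-t) L S
      (x * L ^ (2 * C + 1)) hL100 hS1 hN0S (by omega) hBg2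
    have k3 := grid_all (fun n => w (-(n : ℤ))) (fun n => hw _) _ σ₂ hσ₂ N0 M k g c1 B U1 hN01 G2 f hff t L S
      (x * L ^ (2 * C + 1)) hL100 hS1 hN0S (by omega) hBg3
    have k4 := grid_all (fun n => w (-(n : ℤ))) (fun n => hw _) _ (-σ₂) hσ₂' N0 M k g c1 B U1 hN01 hGn2 f hff (-t) L S
      (x * L ^ (2 * C + 1)) hL100 hS1 hN0S (by omega) hBg4
    have hC' : L ^ C * (2 * (2 + 6 * L ^ C) + 1) * x ≤ x * L ^ (2 * C + 1) := by
      have e1 : L ^ C * (2 * (2 + 6 * L ^ C) + 1) ≤ L ^ (2 * C + 1) := by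
        have e2 : L ^ (2 * C + 1) = L ^ C * L ^ C * L := by ring
        have e3 : L ^ C * (2 * (2 + 6 * L ^ C) + 1) ≤ 17 * (L ^ C * L ^ C) := by
          have : L ^ C * 1 ≤ L ^ C * L ^ C := mul_le_mul_of_nonneg_left (hLp C) (hLp0 C).le
          linarith
        have e4 : 17 * (L ^ C * L ^ C) ≤ L ^ C * L ^ C * L := by
          rw [mul_comm]
          exact mul_le_mul_of_nonneg_left (by linarith) (by positivity)
        linarith
      rw [mul_comm (x : ℝ)]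
      exact mul_le_mul_of_nonneg_right e1 hx0.le
    have hH0 : 0 < (b : ℝ) - a := lt_of_lt_of_le (hLp0 _) hH1
    have hab' : a < b := by
      have : (a : ℝ) < b := by linarith
      exact_mod_cast this
    have hUp := hLp0 U
    have hfin := one_tw w hw k nP A N0 M (N0 ^ k) hk hA F hgr1 hgr2 σ₁ σ₂ hσ₁ hσ₂ hg1 hN01 G1 G2 f hff hfe hf0 S x
      (1 / L ^ (U + 2)) (1 / L ^ c1) (L ^ C) (1 / L ^ U) (2 + 6 * L ^ C) (2 / L ^ U1) (L ^ (B + c1 * k + 1))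
      (L ^ C * (2 * (2 + 6 * L ^ C) + 1)) (L ^ (B + c1 * k + U + 2)) hSx hS1 (by positivity)
      (by rw [div_le_one (hLp0 _)]; exact hLp _) (hLp0 _) (by positivity) rfl
      (by
        have : L ≤ S := by
          have := hLS' 1 (by omega)
          rwa [pow_one] at this
        linarith)
      (by
        -- `8 A L^(U+2) ≤ S`
        rw [div_div_eq_mul_div, div_one]
        calc 8 * (A : ℝ) * L ^ (U + 2) ≤ L * L ^ (U + 2) := by
              apply mul_le_mul_of_nonneg_right _ (hLp0 _).le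
              linarith
          _ = L ^ (U + 3) := by ring
          _ ≤ S := hLS' _ (by omega))
      (by positivity)
      (by
        -- `1 / L^c1 ≤ 1 / L^(U+2) / (8 A)`
        rw [div_div]
        apply one_div_le_one_div_of_le (by positivity)
        calc L ^ (U + 2) * (8 * (A : ℝ)) ≤ L ^ (U + 2) * L := by
              apply mul_le_mul_of_nonneg_left _ (hLp0 _).le
              linarith
          _ = L ^ (U + 3) := by ring
          _ ≤ L ^ c1 := hLL (by omega))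
      (by
        -- `32 L^C / L^c1 ≤ 1 / L^U / L^(U+2)`
        rw [mul_one_div, one_div_mul_one_div, ← pow_add, div_le_div_iff₀ (hLp0 _) (hLp0 _), one_mul]
        calc 32 * L ^ C * L ^ (U + (U + 2)) ≤ L * L ^ C * L ^ (U + (U + 2)) := by
              apply mul_le_mul_of_nonneg_right _ (hLp0 _).le
              apply mul_le_mul_of_nonneg_right _ (hLp0 _).le
              linarith
          _ = L ^ (C + 2 * U + 3) := by ring
          _ ≤ L ^ c1 := hLL (by omega))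
      hN0S2
      (by
        -- `M1 S ≤ M`
        have h1 : S * L ^ (C + 2) - 1 < M := by
          rw [hM]; exact Nat.sub_one_lt_floor _
        have h2 : (2 + 6 * L ^ C) * S + 1 ≤ S * L ^ (C + 2) := by
          have e1 : L ^ (C + 2) = L ^ C * L ^ 2 := by ring
          have e2 : (2 + 6 * L ^ C) * S + 1 ≤ 9 * (L ^ C * S) := by
            have := one_le_mul_of_one_le_of_one_le (hLp C) hS1
            have h5 : S * 1 ≤ S * L ^ C := mul_le_mul_of_nonneg_left (hLp C) hS0.le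
            linarith
          have e3 : 9 * (L ^ C * S) ≤ S * L ^ (C + 2) := by
            rw [e1]
            calc 9 * (L ^ C * S) = (L ^ C * S) * 9 := by ring
              _ ≤ (L ^ C * S) * L ^ 2 := by
                  apply mul_le_mul_of_nonneg_left _ (by positivity)
                  nlinarith
              _ = _ := by ring
          linarith
        linarith)
      rfl (by positivity) (hLp0 _).le
      (by
        -- `32 (2 / L^U1 * L^C) ≤ 1 / L^U`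
        have e1 : 32 * (2 / L ^ U1 * L ^ C) = 64 / L * (1 / L ^ U) := by
          rw [hU1, pow_add, pow_add, pow_one]
          have := (hLp0 C).ne'
          field_simp
          norm_num
        rw [e1]
        have : 64 / L ≤ 1 := by rw [div_le_one hL0]; linarith
        calc 64 / L * (1 / L ^ U) ≤ 1 * (1 / L ^ U) := mul_le_mul_of_nonneg_right this (by positivity)
          _ = _ := one_mul _)
      (by
        -- `64 β ≤ ε H`
        have e1 : 1 / L ^ U * L ^ (B + c1 * k + U + 2) = L * L ^ (B + c1 * k + 1) := by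
          have : L ^ (B + c1 * k + U + 2) = L ^ U * (L * L ^ (B + c1 * k + 1)) := by ring
          rw [this, ← mul_assoc, one_div_mul_cancel (hLp0 U).ne', one_mul]
        rw [e1]
        exact mul_le_mul_of_nonneg_right (by linarith) (hLp0 _).le)
      (by
        have e1 : 1 / L ^ U * L ^ (B + c1 * k + U + 2) = L * L ^ (B + c1 * k + 1) := by
          have : L ^ (B + c1 * k + U + 2) = L ^ U * (L * L ^ (B + c1 * k + 1)) := by ring
          rw [this, ← mul_assoc, one_div_mul_cancel (hLp0 U).ne', one_mul]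
        rw [e1]
        calc (16 : ℝ) ≤ L := by linarith
          _ ≤ L * L ^ (B + c1 * k + 1) := le_mul_of_one_le_right hL0.le (hLp _))
      t htx ht1
      (fun Y hY => k1 Y (hY.trans hC')) (fun Y hY => k2 Y (hY.trans hC'))
      (fun Y hY => k3 Y (hY.trans hC')) (fun Y hY => k4 Y (hY.trans hC'))
      a b hab' hH1
      (fun m hm => by
        refine (hv m hm).trans (le_of_eq ?_)
        ring)
    refine hfin.trans (le_of_eq ?_)
    ring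

end Pool.Agent.Q156.BW
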