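import Pool.Agent.Q156.BW.B8
import Pool.Agent.Q156.AW.A8
import Pool.Agent.TH892.LW.N7

/-!
The Liouville and the Moebius function in all progressions.
-/

set_option autoImplicit false

namespace Pool.Agent.Q156.BW

open Finset Filter Topology Polynomial
open Pool.Agent.TH204.WR (rt rt_pow evt_log_ge evt_log_pow EE)
open Pool.Agent.TH892.LW (Dav)
open Pool.Agent.Q156.AW

/-- one function, all progressions -/
theorem prog_rate (k : ℕ) (hk : 1 ≤ k) (F : ℤ[X]) (hF : F.natDegree = k + 1) (U C K : ℕ) (f : ℤ → ℝ) (hf : Dav f)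
    (hfe : ∀ v, f (-v) = f v) (hf0 : f 0 = 0) :
    ∃ B X0 : ℕ, ∀ x : ℕ, X0 ≤ x → ∀ w : ℤ → ℝ, (∀ m, |w m| ≤ 1) →
    ∃ Bad : Finset ℤ, Bad ⊆ Icc (-(x : ℤ)) x ∧ (#Bad : ℝ) ≤ x / Real.log x ^ U / 2 ∧ ∀ t ∈ Icc (-(x : ℤ)) x, t ∉ Bad →
    ∀ q : ℕ, 1 ≤ q → (q : ℝ) ≤ Real.log x ^ K → ∀ r a b : ℤ, Real.log x ^ B ≤ (b : ℝ) - a →
      (∀ m ∈ Ioc a b, |((F.eval m + t : ℤ) : ℝ)| ≤ ((b : ℝ) - a) * (rt k x ^ k * Real.log x ^ C)) →
      |∑ m ∈ (Ioc a b).filter (fun m => (q : ℤ) ∣ m - r), w m * f (F.eval m + t)| ≤ ((b : ℝ) - a) / Real.log x ^ U := by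
  classical
  obtain ⟨K', hK'⟩ : ∃ K', K' = 2 * K + 1 := ⟨_, rfl⟩
  obtain ⟨B, A, X1, h1⟩ := core_rate k hk F hF (U + K' + 1) C
  obtain ⟨N1, hN1⟩ := hf.2 A
  have hev : ∀ᶠ x : ℕ in atTop, ((N1 : ℝ) + 10) ≤ Real.log x ∧
      Real.log x ^ 1 ≤ (x : ℝ) ^ ((1 : ℝ) / (k + 1)) := by
    filter_upwards [evt_log_ge ((N1 : ℝ) + 10), evt_log_pow 1 ((1 : ℝ) / (k + 1)) (by positivity)] with x h1 h2
    exact ⟨h1, h2⟩
  obtain ⟨X2, h2⟩ := eventually_atTop.1 hev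
  refine ⟨B, max X1 X2, fun x hx w hw => ?_⟩
  obtain ⟨hL, hLS⟩ := h2 x ((le_max_right _ _).trans hx)
  have hN1r : (0 : ℝ) ≤ N1 := Nat.cast_nonneg _
  have hSr : rt k x = (x : ℝ) ^ ((1 : ℝ) / (k + 1)) := rfl
  rw [← hSr, pow_one] at hLS
  have hL10 : 10 ≤ Real.log x := by linarith
  have hS1 : 1 ≤ rt k x := by linarith
  have hsup : ∀ Y : ℕ, rt k x ^ k ≤ Y → (Y : ℝ) ≤ x * Real.log x ^ (2 * C + 1) → ∀ α : ℝ,
      ‖EE Y f α‖ ≤ Y / Real.log Y ^ A := by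
    intro Y hY _ α
    apply hN1
    have e1 : rt k x ≤ rt k x ^ k := le_self_pow₀ hS1 (by omega)
    have : (N1 : ℝ) ≤ Y := by linarith
    exact_mod_cast this
  obtain ⟨wt, hwt⟩ : ∃ wt : ℕ → ℤ → ℝ, wt = fun i m => if (((Nat.unpair i).1 : ℕ) : ℤ) ∣ m - ((Nat.unpair i).2 : ℕ) then w m else 0 :=
    ⟨_, rfl⟩
  have hwt1 : ∀ i m, |wt i m| ≤ 1 := by
    intro i m
    rw [hwt]
    simp only
    split_ifs
    · exact hw m
    · simp
  have hone := fun i => h1 x ((le_max_left _ _).trans hx) f hf.1 hfe hf0 hsup (wt i) (hwt1 i)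
  obtain ⟨Bad, hB1, hB2, hB3⟩ := union_bad x U K' (Real.log x) (by linarith)
    (fun i t => ∀ a b : ℤ, Real.log x ^ B ≤ (b : ℝ) - a →
      (∀ m ∈ Ioc a b, |((F.eval m + t : ℤ) : ℝ)| ≤ ((b : ℝ) - a) * (rt k x ^ k * Real.log x ^ C)) →
      |∑ m ∈ Ioc a b, wt i m * f (F.eval m + t)| ≤ ((b : ℝ) - a) / Real.log x ^ (U + K' + 1)) hone
  refine ⟨Bad, hB1, hB2, fun t ht htB q hq hqK r a b hab hv => ?_⟩
  have hL1 : 1 ≤ Real.log x := by linarith
  have hL0 : 0 < Real.log x := by linarith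
  -- the index
  obtain ⟨r', hr'⟩ : ∃ r' : ℕ, (r' : ℤ) = r % q := ⟨(r % q).toNat, by
    rw [Int.toNat_of_nonneg]
    exact Int.emod_nonneg _ (by omega)⟩
  have hr'q : r' < q := by
    have : r % (q : ℤ) < q := Int.emod_lt_of_pos _ (by omega)
    omega
  have hidx : ((Nat.pair q r' : ℕ) : ℝ) ≤ Real.log x ^ K' := by
    have e1 : Nat.pair q r' < (max q r' + 1) ^ 2 := Nat.pair_lt_max_add_one_sq q r'
    have e2 : max q r' = q := max_eq_left hr'q.le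
    rw [e2] at e1
    have e3 : ((Nat.pair q r' : ℕ) : ℝ) ≤ ((q : ℝ) + 1) ^ 2 := by exact_mod_cast e1.le
    refine e3.trans ?_
    have e4 : (q : ℝ) + 1 ≤ 2 * Real.log x ^ K := by
      have := one_le_pow₀ hL1 (n := K)
      linarith
    calc ((q : ℝ) + 1) ^ 2 ≤ (2 * Real.log x ^ K) ^ 2 := pow_le_pow_left₀ (by positivity) e4 2
      _ = 4 * (Real.log x ^ K * Real.log x ^ K) := by ring
      _ ≤ Real.log x * (Real.log x ^ K * Real.log x ^ K) := mul_le_mul_of_nonneg_right (by linarith) (by positivity)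
      _ = Real.log x ^ K' := by rw [hK']; ring
  have h5 := hB3 t ht htB (Nat.pair q r') hidx a b hab hv
  have h6 : ∑ m ∈ (Ioc a b).filter (fun m => (q : ℤ) ∣ m - r), w m * f (F.eval m + t) =
      ∑ m ∈ Ioc a b, wt (Nat.pair q r') m * f (F.eval m + t) := by
    rw [sum_filter]
    apply sum_congr rfl
    intro m _
    rw [hwt]
    simp only [Nat.unpair_pair]
    have h7 : ((q : ℤ) ∣ m - r) ↔ ((q : ℤ) ∣ m - (r' : ℤ)) := by
      rw [hr']
      have h8 : (q : ℤ) ∣ r - r % q := Int.dvd_self_sub_emod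
      constructor
      · intro h
        have := dvd_add h h8
        have e : m - r + (r - r % q) = m - r % q := by ring
        rwa [e] at this
      · intro h
        have := dvd_sub h h8
        have e : m - r % q - (r - r % q) = m - r := by ring
        rwa [e] at this
    by_cases hd : (q : ℤ) ∣ m - r
    · rw [if_pos hd, if_pos (h7.1 hd)]
    · rw [if_neg hd, if_neg (fun h => hd (h7.2 h)), zero_mul]
  rw [h6]
  refine h5.trans ?_
  have hH0 : 0 ≤ (b : ℝ) - a := (pow_nonneg hL0.le _).trans hab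
  apply div_le_div_of_nonneg_left hH0 (by positivity)
  exact pow_le_pow_right₀ hL1 (by omega)

/-- complex weights, both functions -/
theorem both_rate (k : ℕ) (hk : 1 ≤ k) (F : ℤ[X]) (hF : F.natDegree = k + 1) (U C K : ℕ) :
    ∃ B X0 : ℕ, ∀ x : ℕ, X0 ≤ x → ∀ w : ℤ → ℂ, (∀ m, ‖w m‖ ≤ 1) →
    ∃ Bad : Finset ℤ, (#Bad : ℝ) ≤ x / Real.log x ^ U ∧ ∀ t ∈ Icc (-(x : ℤ)) x, t ∉ Bad →
    ∀ q : ℕ, 1 ≤ q → (q : ℝ) ≤ Real.log x ^ K → ∀ r a b : ℤ, Real.log x ^ B ≤ (b : ℝ) - a →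
      (∀ m ∈ Ioc a b, |((F.eval m + t : ℤ) : ℝ)| ≤ ((b : ℝ) - a) * (rt k x ^ k * Real.log x ^ C)) →
      ‖∑ m ∈ (Ioc a b).filter (fun m => (q : ℤ) ∣ m - r), w m * ((Pool.Agent.TH892.LW.lam (F.eval m + t) : ℝ) : ℂ)‖ ≤
        ((b : ℝ) - a) / Real.log x ^ U ∧
      ‖∑ m ∈ (Ioc a b).filter (fun m => (q : ℤ) ∣ m - r), w m * ((Pool.Agent.TH892.LW.mob (F.eval m + t) : ℝ) : ℂ)‖ ≤
        ((b : ℝ) - a) / Real.log x ^ U := by
  classical
  obtain ⟨B1, X1, h1⟩ := prog_rate k hk F hF (U + 1) C K _ Pool.Agent.TH892.LW.dav_lam Pool.Agent.TH892.LW.lam_neg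
    Pool.Agent.TH892.LW.lam_zero
  obtain ⟨B2, X2, h2⟩ := prog_rate k hk F hF (U + 1) C K _ Pool.Agent.TH892.LW.dav_mob Pool.Agent.TH892.LW.mob_neg
    Pool.Agent.TH892.LW.mob_zero
  obtain ⟨X3, h3⟩ := eventually_atTop.1 (evt_log_ge 10)
  refine ⟨B1 + B2, max (max X1 X2) X3, fun x hx w hw => ?_⟩
  have hx1 := le_trans (le_trans (le_max_left _ _) (le_max_left _ _)) hx
  have hx2 := le_trans (le_trans (le_max_right _ _) (le_max_left _ _)) hx
  have hL := h3 x ((le_max_right _ _).trans hx)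
  have hL0 : 0 < Real.log x := by linarith
  have hL1 : 1 ≤ Real.log x := by linarith
  have hre : ∀ m, |(w m).re| ≤ 1 := fun m => (Complex.abs_re_le_norm _).trans (hw m)
  have him : ∀ m, |(w m).im| ≤ 1 := fun m => (Complex.abs_im_le_norm _).trans (hw m)
  obtain ⟨D1, -, hD1, g1⟩ := h1 x hx1 _ hre
  obtain ⟨D2, -, hD2, g2⟩ := h1 x hx1 _ him
  obtain ⟨D3, -, hD3, g3⟩ := h2 x hx2 _ hre
  obtain ⟨D4, -, hD4, g4⟩ := h2 x hx2 _ him
  refine ⟨(D1 ∪ D2) ∪ (D3 ∪ D4), ?_, fun t ht htB q hq hqK r a b hab hv => ?_⟩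
  · have c1 := card_union_le (D1 ∪ D2) (D3 ∪ D4)
    have c2 := card_union_le D1 D2
    have c3 := card_union_le D3 D4
    have c4 : (#((D1 ∪ D2) ∪ (D3 ∪ D4)) : ℝ) ≤ #D1 + #D2 + #D3 + #D4 := by
      exact_mod_cast (by omega : #((D1 ∪ D2) ∪ (D3 ∪ D4)) ≤ #D1 + #D2 + #D3 + #D4)
    refine c4.trans ?_
    have e1 : (x : ℝ) / Real.log x ^ U = Real.log x * (x / Real.log x ^ (U + 1)) := by
      rw [pow_succ]
      have := (pow_pos hL0 U).ne'
      field_simp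
    rw [e1]
    have e2 : 0 ≤ (x : ℝ) / Real.log x ^ (U + 1) := by positivity
    have e3 := mul_le_mul_of_nonneg_right hL e2
    linarith
  · simp only [mem_union, not_or] at htB
    obtain ⟨⟨b1, b2⟩, b3, b4⟩ := htB
    have hH0 : 0 ≤ (b : ℝ) - a := (pow_nonneg hL0.le _).trans hab
    have hab1 : Real.log x ^ B1 ≤ (b : ℝ) - a := (pow_le_pow_right₀ hL1 (by omega)).trans hab
    have hab2 : Real.log x ^ B2 ≤ (b : ℝ) - a := (pow_le_pow_right₀ hL1 (by omega)).trans hab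
    have a1 := g1 t ht b1 q hq hqK r a b hab1 hv
    have a2 := g2 t ht b2 q hq hqK r a b hab1 hv
    have a3 := g3 t ht b3 q hq hqK r a b hab2 hv
    have a4 := g4 t ht b4 q hq hqK r a b hab2 hv
    have e0 : 2 * (((b : ℝ) - a) / Real.log x ^ (U + 1)) ≤ ((b : ℝ) - a) / Real.log x ^ U := by
      have e1 : ((b : ℝ) - a) / Real.log x ^ U = Real.log x * (((b : ℝ) - a) / Real.log x ^ (U + 1)) := by
        rw [pow_succ]
        have := (pow_pos hL0 U).ne'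
        field_simp
      rw [e1]
      have e2 : 0 ≤ ((b : ℝ) - a) / Real.log x ^ (U + 1) := by positivity
      have e3 := mul_le_mul_of_nonneg_right hL e2
      linarith
    have key : ∀ φ : ℤ → ℝ, ∀ T : Finset ℤ,
        |∑ m ∈ T, (w m).re * φ m| ≤ ((b : ℝ) - a) / Real.log x ^ (U + 1) →
        |∑ m ∈ T, (w m).im * φ m| ≤ ((b : ℝ) - a) / Real.log x ^ (U + 1) →
        ‖∑ m ∈ T, w m * ((φ m : ℝ) : ℂ)‖ ≤ ((b : ℝ) - a) / Real.log x ^ U := by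
      intro φ T c1 c2
      refine (Complex.norm_le_abs_re_add_abs_im _).trans ?_
      have e1 : (∑ m ∈ T, w m * ((φ m : ℝ) : ℂ)).re = ∑ m ∈ T, (w m).re * φ m := by
        rw [Complex.re_sum]
        refine sum_congr rfl fun m _ => ?_
        rw [Complex.re_mul_ofReal]
      have e2 : (∑ m ∈ T, w m * ((φ m : ℝ) : ℂ)).im = ∑ m ∈ T, (w m).im * φ m := by
        rw [Complex.im_sum]
        refine sum_congr rfl fun m _ => ?_
        rw [Complex.im_mul_ofReal]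
      rw [e1, e2]
      linarith
    exact ⟨key (fun m => Pool.Agent.TH892.LW.lam (F.eval m + t)) _ a1 a2,
      key (fun m => Pool.Agent.TH892.LW.mob (F.eval m + t)) _ a3 a4⟩

end Pool.Agent.Q156.BW
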